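import Pool.Agent.W54.SC.C
import Pool.Agent.W335.SCM.Moeb

/-!
# Lifts of elliptic Moebius maps of the circle
-/

set_option autoImplicit false

open scoped ComplexConjugate

namespace Pool.Agent.TH290.CL

open Pool.Agent.W335.SCM

/-- `exp (2 π i x)` -/
noncomputable def ex (x : ℝ) : ℂ := Complex.exp (2 * Real.pi * Complex.I * (x : ℝ))

theorem ex_eq (x : ℝ) : ex x = Complex.exp (((2 * Real.pi * x : ℝ) : ℂ) * Complex.I) := by
  unfold ex
  congr 1
  push_cast
  ring

theorem ex_add (x y : ℝ) : ex (x + y) = ex x * ex y := by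
  unfold ex
  rw [← Complex.exp_add]
  congr 1
  push_cast
  ring

theorem ex_zero : ex 0 = 1 := by
  unfold ex
  simp

theorem norm_ex (x : ℝ) : ‖ex x‖ = 1 := by
  rw [ex_eq]
  exact Complex.norm_exp_ofReal_mul_I _

theorem ex_ne (x : ℝ) : ex x ≠ 0 := by
  unfold ex
  exact Complex.exp_ne_zero _

theorem ex_neg (x : ℝ) : ex (-x) = conj (ex x) := by
  unfold ex
  rw [← Complex.exp_conj]
  congr 1
  rw [map_mul, map_mul, map_mul, Complex.conj_I, Complex.conj_ofReal, Complex.conj_ofReal]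
  have : conj (2 : ℂ) = 2 := Complex.conj_ofNat 2
  rw [this]
  push_cast
  ring

theorem ex_int (n : ℤ) : ex n = 1 := by
  unfold ex
  rw [Complex.exp_eq_one_iff]
  exact ⟨n, by push_cast; ring⟩

theorem ex_add_int (x : ℝ) (n : ℤ) : ex (x + n) = ex x := by
  rw [ex_add, ex_int, mul_one]

theorem ex_nat_mul (x : ℝ) (n : ℕ) : ex (n * x) = ex x ^ n := by
  unfold ex
  rw [← Complex.exp_nat_mul]
  congr 1
  push_cast
  ring

theorem ex_eq_one {x : ℝ} (h : ex x = 1) : ∃ n : ℤ, x = n := by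
  unfold ex at h
  obtain ⟨n, hn⟩ := Complex.exp_eq_one_iff.1 h
  refine ⟨n, ?_⟩
  have h7 : (2 * Real.pi * Complex.I : ℂ) ≠ 0 := Complex.two_pi_I_ne_zero
  have h8 : ((x : ℝ) : ℂ) = (n : ℂ) := by
    apply mul_left_cancel₀ h7
    rw [hn]
    ring
  exact_mod_cast h8

theorem ex_eq_ex {x y : ℝ} (h : ex x = ex y) : ∃ n : ℤ, x - y = n := by
  apply ex_eq_one
  rw [sub_eq_add_neg, ex_add, h, ← ex_add, add_neg_cancel, ex_zero]

theorem norm_ex_sub_one (x : ℝ) : ‖ex x - 1‖ = 2 * |Real.sin (Real.pi * x)| := by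
  have h : ex x = Complex.exp (Complex.I * ((2 * Real.pi * x : ℝ) : ℂ)) := by
    rw [ex_eq, mul_comm]
  rw [h, Complex.norm_exp_I_mul_ofReal_sub_one, Real.norm_eq_abs, abs_mul,
    abs_of_pos (by norm_num : (0 : ℝ) < 2)]
  congr 3
  ring

theorem norm_ex_sub_one_le (x : ℝ) (t : ℤ) : ‖ex x - 1‖ ≤ 8 * |x - t| := by
  have h : ex x = ex (x - t) := by
    have := ex_add_int (x - t) t
    rw [sub_add_cancel] at this
    exact this
  rw [h, norm_ex_sub_one]
  have h1 : |Real.sin (Real.pi * (x - t))| ≤ |Real.pi * (x - t)| := Real.abs_sin_le_abs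
  rw [abs_mul, abs_of_pos Real.pi_pos] at h1
  have h2 := Real.pi_le_four
  have h3 := abs_nonneg (x - t)
  nlinarith

theorem le_norm_ex_sub_one {x δ : ℝ} (h : ∀ t : ℤ, δ ≤ |x - t|) : 4 * δ ≤ ‖ex x - 1‖ := by
  have hx : ex x = ex (x - round x) := by
    have := ex_add_int (x - round x) (round x)
    rw [sub_add_cancel] at this
    exact this
  rw [hx, norm_ex_sub_one]
  have h1 := h (round x)
  have h2 : |x - round x| ≤ 1 / 2 := abs_sub_round x
  have h3 : |Real.sin (Real.pi * (x - round x))| = Real.sin (Real.pi * |x - round x|) := by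
    rcases abs_cases (x - round x) with ⟨e, e2⟩ | ⟨e, e2⟩
    · rw [e]
      apply abs_of_nonneg
      apply Real.sin_nonneg_of_nonneg_of_le_pi (by positivity)
      rw [e] at h2
      have := Real.pi_pos
      nlinarith
    · rw [e]
      have h4 : Real.pi * (x - round x) = -(Real.pi * -(x - round x)) := by ring
      rw [h4, Real.sin_neg, abs_neg]
      apply abs_of_nonneg
      have := Real.pi_pos
      apply Real.sin_nonneg_of_nonneg_of_le_pi
      · nlinarith
      · rw [e] at h2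
        nlinarith
  rw [h3]
  have h4 := Real.mul_le_sin (x := Real.pi * |x - round x|) (by positivity) (by
    have := Real.pi_pos
    nlinarith)
  have h5 : 2 / Real.pi * (Real.pi * |x - round x|) = 2 * |x - round x| := by
    have := Real.pi_ne_zero
    field_simp
  rw [h5] at h4
  linarith

/-- the lift of the Moebius map -/
noncomputable def Th (s t : ℝ) : ℝ := t - Complex.arg (1 - s * ex t) / Real.pi

theorem one_sub_re {s : ℝ} (h0 : 0 ≤ s) (h1 : s < 1) (t : ℝ) : 0 < (1 - (s : ℂ) * ex t).re := by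
  have h2 : ((s : ℂ) * ex t).re ≤ s := by
    refine (Complex.re_le_norm _).trans ?_
    rw [norm_mul, norm_ex, mul_one, Complex.norm_real, Real.norm_of_nonneg h0]
  rw [Complex.sub_re, Complex.one_re]
  linarith

theorem ex_arg {ζ : ℂ} (hζ : ζ ≠ 0) : ex (Complex.arg ζ / Real.pi) = ζ / conj ζ :=
  Pool.Agent.W54.SC.exp_arg ζ hζ

theorem ex_Th {s : ℝ} (h0 : 0 ≤ s) (h1 : s < 1) (t : ℝ) : ex (Th s t) = Mm s (ex t) := by
  set ξ : ℂ := 1 - (s : ℂ) * ex t with hξ
  have hξ0 : ξ ≠ 0 := one_sub_ne h0 h1 (norm_ex t)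
  have hξc : conj ξ ≠ 0 := by
    intro h
    apply hξ0
    have := congrArg conj h
    rwa [Complex.conj_conj, map_zero] at this
  have h2 : ex (Th s t) = ex t * (conj ξ / ξ) := by
    rw [Th, sub_eq_add_neg, ex_add, ex_neg, ex_arg hξ0, map_div₀, Complex.conj_conj]
  rw [h2]
  have h3 : ex t * conj (ex t) = 1 := mul_conj_one (norm_ex t)
  have h4 : conj ξ = 1 - s * conj (ex t) := by
    rw [hξ, map_sub, map_one, map_mul, Complex.conj_ofReal]
  rw [Mm, h4, mul_div_assoc']
  congr 1
  linear_combination (-(s : ℂ)) * h3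

theorem Th_add_int {s : ℝ} (t : ℝ) (n : ℤ) : Th s (t + n) = Th s t + n := by
  unfold Th
  rw [ex_add_int]
  ring

theorem Th_int {s : ℝ} (h1 : s < 1) (n : ℤ) : Th s n = n := by
  unfold Th
  rw [ex_int, mul_one]
  have : (1 : ℂ) - (s : ℂ) = ((1 - s : ℝ) : ℂ) := by push_cast; ring
  rw [this, Complex.arg_ofReal_of_nonneg (by linarith)]
  simp

theorem Th_mono {s : ℝ} (h0 : 0 ≤ s) (h1 : s < 1) : Monotone (Th s) := by
  have hex : ∀ t : ℝ, HasDerivAt (fun t : ℝ => ex t) (2 * Real.pi * Complex.I * ex t) t := by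
    intro t
    have h2 : HasDerivAt (fun t : ℝ => (2 * Real.pi * Complex.I * ((t : ℝ) : ℂ)))
        (2 * Real.pi * Complex.I) t := by
      have := (Complex.ofRealCLM.hasDerivAt (x := t)).const_mul (2 * Real.pi * Complex.I : ℂ)
      simpa using this
    have h3 := h2.cexp
    unfold ex
    rw [mul_comm (Complex.exp _)] at h3
    exact h3
  have hd : ∀ t : ℝ, HasDerivAt (Th s)
      (1 - ((-(s : ℂ) * (2 * Real.pi * Complex.I * ex t)) / (1 - s * ex t)).im / Real.pi) t := by
    intro t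
    have h2 : HasDerivAt (fun t : ℝ => (1 : ℂ) - s * ex t)
        (-(s : ℂ) * (2 * Real.pi * Complex.I * ex t)) t := by
      have := ((hex t).const_mul (s : ℂ)).const_sub (1 : ℂ)
      rw [neg_mul]
      exact this
    have h3 := h2.clog_real (Or.inl (one_sub_re h0 h1 t))
    have h4 : HasDerivAt (fun t : ℝ => Complex.arg ((1 : ℂ) - s * ex t))
        (((-(s : ℂ) * (2 * Real.pi * Complex.I * ex t)) / (1 - s * ex t)).im) t := by
      have h5 := (Complex.imCLM.hasFDerivAt (x := Complex.log ((1 : ℂ) - s * ex t))).comp_hasDerivAt t h3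
      have h6 : (fun t : ℝ => Complex.arg ((1 : ℂ) - s * ex t)) =
          (Complex.imCLM ∘ fun t : ℝ => Complex.log ((1 : ℂ) - s * ex t)) := by
        funext t
        show _ = (Complex.log ((1 : ℂ) - s * ex t)).im
        rw [Complex.log_im]
      rw [h6]
      exact h5
    exact (hasDerivAt_id t).sub (h4.div_const Real.pi)
  apply monotone_of_deriv_nonneg
  · intro t
    exact (hd t).differentiableAt
  · intro t
    rw [(hd t).deriv]
    set ξ : ℂ := 1 - (s : ℂ) * ex t with hξ
    have hξ0 : ξ ≠ 0 := one_sub_ne h0 h1 (norm_ex t)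
    have hpi := Real.pi_pos
    have h5 : (-(s : ℂ) * (2 * Real.pi * Complex.I * ex t)) / ξ =
        ((2 * Real.pi : ℝ) : ℂ) * (Complex.I * (-((s : ℂ) * ex t) / ξ)) := by
      push_cast
      field_simp
    rw [h5, Complex.im_ofReal_mul, Complex.I_mul_im]
    have h6 : -((s : ℂ) * ex t) / ξ = 1 - 1 / ξ := by
      field_simp
      rw [hξ]
      ring
    rw [h6, Complex.sub_re, Complex.one_re]
    have h7 : (1 / 2 : ℝ) ≤ (1 / ξ).re := by
      rw [one_div ξ, Complex.inv_re, Complex.normSq_apply, le_div_iff₀ (by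
        have := one_sub_re h0 h1 t
        rw [← hξ] at this
        nlinarith [mul_self_nonneg ξ.im, mul_self_pos.2 this.ne'])]
      have h8 : ‖ex t‖ ^ 2 = 1 := by rw [norm_ex]; norm_num
      rw [← Complex.normSq_eq_norm_sq, Complex.normSq_apply] at h8
      have h9 : ξ.re = 1 - s * (ex t).re := by rw [hξ]; simp
      have h10 : ξ.im = - (s * (ex t).im) := by rw [hξ]; simp
      rw [h9, h10]
      have h11 : s * s * ((ex t).re * (ex t).re + (ex t).im * (ex t).im) = s * s := by
        rw [h8, mul_one]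
      have h12 : s * s ≤ 1 := by nlinarith
      nlinarith
    have h8 : 2 * Real.pi * (1 - (1 / ξ).re) / Real.pi = 2 * (1 - (1 / ξ).re) := by
      field_simp
    rw [h8]
    linarith

end Pool.Agent.TH290.CL
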