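import Pool.Agent.TH290.CL.TC

/-!
# The family of perturbations
-/

set_option autoImplicit false
set_option linter.unusedSectionVars false

open scoped Manifold ContDiff Topology NNReal ComplexConjugate
open Filter Set Metric

universe u

namespace Pool.Agent.TH290.CL

open Pool.Agent.H718R2.G Pool.Agent.W564.SC

theorem slit_of_small {x : ℂ} (h : ‖x‖ < 1 / 2) : 1 + x ∈ Complex.slitPlane := by
  left
  have h1 := (abs_le.1 (Complex.abs_re_le_norm x)).1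
  rw [Complex.add_re, Complex.one_re]
  linarith

theorem arg_lip {x y : ℂ} (hx : ‖x‖ < 1 / 2) (hy : ‖y‖ < 1 / 2) :
    |Complex.arg (1 + y) - Complex.arg (1 + x)| ≤ 2 * ‖y - x‖ := by
  have h1 : ∀ z ∈ ball (1 : ℂ) (1 / 2), z ∈ Complex.slitPlane := by
    intro z hz
    rw [mem_ball, dist_eq_norm] at hz
    have := slit_of_small hz
    rwa [add_sub_cancel] at this
  have h2 : ∀ z ∈ ball (1 : ℂ) (1 / 2), HasDerivWithinAt Complex.log (z⁻¹) (ball (1 : ℂ) (1 / 2)) z :=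
    fun z hz => (Complex.hasDerivAt_log (h1 z hz)).hasDerivWithinAt
  have h3 : ∀ z ∈ ball (1 : ℂ) (1 / 2), ‖z⁻¹‖ ≤ 2 := by
    intro z hz
    rw [mem_ball, dist_eq_norm] at hz
    have h4 : ‖(1 : ℂ)‖ ≤ ‖z‖ + ‖z - 1‖ := by
      have : (1 : ℂ) = z - (z - 1) := by ring
      calc ‖(1 : ℂ)‖ = ‖z - (z - 1)‖ := by rw [← this]
        _ ≤ _ := norm_sub_le _ _
    rw [norm_one] at h4
    rw [norm_inv, inv_le_comm₀ (by linarith) (by norm_num)]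
    linarith
  have hx' : 1 + x ∈ ball (1 : ℂ) (1 / 2) := by
    rw [mem_ball, dist_eq_norm, add_sub_cancel_left]
    exact hx
  have hy' : 1 + y ∈ ball (1 : ℂ) (1 / 2) := by
    rw [mem_ball, dist_eq_norm, add_sub_cancel_left]
    exact hy
  have h4 := Convex.norm_image_sub_le_of_norm_hasDerivWithin_le h2 h3 (convex_ball _ _) hx' hy'
  have h5 : 1 + y - (1 + x) = y - x := by ring
  rw [h5] at h4
  rw [← Complex.log_im, ← Complex.log_im, ← Complex.sub_im]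
  exact (Complex.abs_im_le_norm _).trans h4

/-- the time of the perturbation -/
noncomputable def T (q : ℕ) (s : ℝ × (ℂ × ℂ)) (w : ℂ) : ℝ :=
  s.1 + Complex.arg (1 + s.2.1 + s.2.2 * conj w) / (Real.pi * q)

theorem T_smooth (q : ℕ) {z : (ℝ × (ℂ × ℂ)) × ℂ}
    (h : 1 + z.1.2.1 + z.1.2.2 * conj z.2 ∈ Complex.slitPlane) :
    ContDiffAt ℝ ∞ (fun z : (ℝ × (ℂ × ℂ)) × ℂ => T q z.1 z.2) z := by
  have h1 : ContDiffAt ℝ ∞ Complex.arg (1 + z.1.2.1 + z.1.2.2 * conj z.2) := by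
    have h2 : ContDiffAt ℝ ∞ (fun x => Complex.imCLM (Complex.log x))
        (1 + z.1.2.1 + z.1.2.2 * conj z.2) :=
      Complex.imCLM.contDiff.contDiffAt.comp _ ((Complex.contDiffAt_log h).restrict_scalars ℝ)
    refine h2.congr_of_eventuallyEq (Eventually.of_forall fun x => ?_)
    show Complex.arg x = (Complex.log x).im
    rw [Complex.log_im]
  have h3 : ContDiff ℝ ∞ (fun z : (ℝ × (ℂ × ℂ)) × ℂ => 1 + z.1.2.1 + z.1.2.2 * conj z.2) := by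
    have hc : ContDiff ℝ ∞ (fun w : ℂ => conj w) := Complex.conjCLE.contDiff
    exact (contDiff_const.add contDiff_fst.snd.fst).add
      (contDiff_fst.snd.snd.mul (hc.comp contDiff_snd))
  have h4 := (ContDiffAt.comp z h1 h3.contDiffAt).div_const (Real.pi * q)
  exact contDiffAt_fst.fst.add h4

variable {n : ℕ} {N : Type u} [TopologicalSpace N] [ChartedSpace (V n) N] [IsManifold (𝓡 n) ∞ N]
  {ψ : ℝ → N → N}

theorem fam [CompactSpace N] (r : ℕ∞) (hψ : IsFlow n N ψ) (a : N → ℂ)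
    (ha : ContMDiff (𝓡 n) 𝓘(ℝ, ℂ) ∞ a) (q : ℕ) (hq : 1 ≤ q) (F : DiffM n N r) :
    ∃ (H : ℝ × (ℂ × ℂ) → DiffM n N r) (κ : ℝ), 0 < κ ∧ H 0 = F ∧ IsFam n N r H ∧
      ∀ s, ‖s‖ < κ → ∀ y, H s y = ψ (T q s (a (F y) ^ q)) (F y) := by
  have hr : (r : WithTop ℕ∞) ≤ ∞ := by exact_mod_cast le_top
  have hpi := Real.pi_gt_three
  have hq1 : (1 : ℝ) ≤ q := by exact_mod_cast hq
  have hb : ContMDiff (𝓡 n) 𝓘(ℝ, ℂ) ∞ (fun y => a y ^ q) := by
    have h1 : ContDiff ℝ ∞ (fun w : ℂ => w ^ q) := contDiff_id.pow q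
    exact h1.contMDiff.comp ha
  obtain ⟨b, hbd⟩ : ∃ b : N → ℂ, b = fun y => a y ^ q := ⟨_, rfl⟩
  rw [← hbd] at hb
  obtain ⟨B, hB⟩ : ∃ B : ℝ, ∀ y, ‖b y‖ ≤ B := by
    obtain ⟨B, hB⟩ := (isCompact_univ.image hb.continuous).isBounded.exists_norm_le
    exact ⟨B, fun y => hB _ (mem_image_of_mem _ (mem_univ y))⟩
  obtain ⟨L, hL⟩ := flow_lip hψ hb
  have hL0 : (0 : ℝ) ≤ L := L.2
  set κ : ℝ := 1 / (4 * (1 + |B| + L)) with hκd
  have hκ0 : 0 < κ := by positivity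
  have hκ1 : κ * (1 + |B| + L) = 1 / 4 := by
    rw [hκd]
    field_simp
  have hsm : ∀ s : ℝ × (ℂ × ℂ), ‖s‖ < κ → ‖s.2.1‖ < κ ∧ ‖s.2.2‖ < κ := fun s hs =>
    ⟨((norm_fst_le s.2).trans (norm_snd_le s)).trans_lt hs,
      ((norm_snd_le s.2).trans (norm_snd_le s)).trans_lt hs⟩
  have hx : ∀ s : ℝ × (ℂ × ℂ), ‖s‖ < κ → ∀ y, ‖s.2.1 + s.2.2 * conj (b y)‖ < 1 / 2 := by
    intro s hs y
    obtain ⟨h1, h2⟩ := hsm s hs
    refine (norm_add_le _ _).trans_lt ?_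
    rw [norm_mul, RCLike.norm_conj]
    have h3 : ‖b y‖ ≤ |B| := (hB y).trans (le_abs_self B)
    have h4 : ‖s.2.2‖ * ‖b y‖ ≤ κ * |B| := mul_le_mul h2.le h3 (norm_nonneg _) hκ0.le
    have h5 : κ * (1 + |B| + L) = κ + κ * |B| + κ * L := by ring
    have h6 : 0 ≤ κ * L := by positivity
    linarith
  have hslit : ∀ s : ℝ × (ℂ × ℂ), ‖s‖ < κ → ∀ y,
      1 + s.2.1 + s.2.2 * conj (b y) ∈ Complex.slitPlane := by
    intro s hs y
    have := slit_of_small (hx s hs y)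
    rwa [← add_assoc] at this
  have hts : ∀ s : ℝ × (ℂ × ℂ), ‖s‖ < κ → ContMDiff (𝓡 n) 𝓘(ℝ, ℝ) ∞ (fun y => T q s (b y)) := by
    intro s hs y
    have h1 : ContMDiffAt (𝓡 n) 𝓘(ℝ, (ℝ × (ℂ × ℂ)) × ℂ) ∞ (fun y => (s, b y)) y :=
      contMDiffAt_const.prodMk_space hb.contMDiffAt
    have h2 : ContDiffAt ℝ ∞ (fun z : (ℝ × (ℂ × ℂ)) × ℂ => T q z.1 z.2) (s, b y) :=
      T_smooth q (hslit s hs y)
    exact h2.comp_contMDiffAt (f := fun y => (s, b y)) h1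
  have hlip : ∀ s : ℝ × (ℂ × ℂ), ‖s‖ < κ → ∀ y, LipschitzWith (1 / 2)
      (fun t : ℝ => T q s (b (ψ t y))) := by
    intro s hs y
    apply LipschitzWith.of_dist_le_mul
    intro t t'
    have h3 : ((1 / 2 : ℝ≥0) : ℝ) = 1 / 2 := by norm_num
    rw [h3, Real.dist_eq]
    have h1 : T q s (b (ψ t y)) - T q s (b (ψ t' y)) =
        (Complex.arg (1 + (s.2.1 + s.2.2 * conj (b (ψ t y)))) -
          Complex.arg (1 + (s.2.1 + s.2.2 * conj (b (ψ t' y))))) / (Real.pi * q) := by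
      unfold T
      rw [← add_assoc, ← add_assoc]
      ring
    have h2 := arg_lip (hx s hs (ψ t' y)) (hx s hs (ψ t y))
    have h4 : (s.2.1 + s.2.2 * conj (b (ψ t y))) - (s.2.1 + s.2.2 * conj (b (ψ t' y))) =
        s.2.2 * conj (b (ψ t y) - b (ψ t' y)) := by
      rw [map_sub]
      ring
    rw [h4, norm_mul, RCLike.norm_conj] at h2
    have h5 : ‖b (ψ t y) - b (ψ t' y)‖ ≤ L * dist t t' := by
      have := (hL y).dist_le_mul t t'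
      rwa [dist_eq_norm] at this
    have h6 := (hsm s hs).2
    have hd : 0 ≤ dist t t' := dist_nonneg
    have h7 : ‖s.2.2‖ * ‖b (ψ t y) - b (ψ t' y)‖ ≤ κ * (L * dist t t') :=
      mul_le_mul h6.le h5 (norm_nonneg _) hκ0.le
    have h8 : κ * L ≤ 1 / 4 := by
      have : 0 ≤ κ * (1 + |B|) := by positivity
      nlinarith
    have h9 : κ * (L * dist t t') ≤ 1 / 4 * dist t t' := by
      rw [← mul_assoc]
      exact mul_le_mul_of_nonneg_right h8 hd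
    rw [h1, abs_div, abs_of_pos (by positivity : 0 < Real.pi * q), div_le_iff₀ (by positivity)]
    have h10 : 1 ≤ Real.pi * q := by nlinarith
    have h11 : 1 / 2 * dist t t' * 1 ≤ 1 / 2 * dist t t' * (Real.pi * q) :=
      mul_le_mul_of_nonneg_left h10 (by positivity)
    linarith
  -- the diffeomorphisms
  have key : ∀ s : ℝ × (ℂ × ℂ), ∃ G : DiffM n N r, (‖s‖ < κ →
      ∀ y, G y = ψ (T q s (b (F y))) (F y)) ∧ (¬ ‖s‖ < κ → G = F) := by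
    intro s
    by_cases hs : ‖s‖ < κ
    · obtain ⟨G, hG⟩ := tc hψ (hts s hs) (hlip s hs) r
      exact ⟨F.trans G, fun _ y => hG (F y), fun h => absurd hs h⟩
    · exact ⟨F, fun h => absurd h hs, fun _ => rfl⟩
  choose H hH1 hH2 using key
  refine ⟨H, κ, hκ0, ?_, ?_, ?_⟩
  · ext y
    rw [hH1 0 (by rw [norm_zero]; exact hκ0)]
    have : T q 0 (b (F y)) = 0 := by
      unfold T
      simp
    rw [this, hψ.zero]
  · intro y
    have hq' : Tendsto (fun z : (ℝ × (ℂ × ℂ)) × N => ‖z.1‖) (𝓝 ((0 : ℝ × (ℂ × ℂ)), y))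
        (𝓝 ‖(0 : ℝ × (ℂ × ℂ))‖) := (continuous_fst.norm.tendsto _)
    have hev : ∀ᶠ z : (ℝ × (ℂ × ℂ)) × N in 𝓝 ((0 : ℝ × (ℂ × ℂ)), y), ‖z.1‖ < κ :=
      hq'.eventually (gt_mem_nhds (by rw [norm_zero]; exact hκ0))
    have e1 : (fun z : (ℝ × (ℂ × ℂ)) × N => H z.1 z.2) =ᶠ[𝓝 ((0 : ℝ × (ℂ × ℂ)), y)]
        (fun z => ψ (T q z.1 (b (F z.2))) (F z.2)) := by
      filter_upwards [hev] with z hz
      exact hH1 z.1 hz z.2
    refine ContMDiffAt.congr_of_eventuallyEq ?_ e1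
    have s0 : ContMDiffAt (𝓘(ℝ, ℝ × (ℂ × ℂ)).prod (𝓡 n)) (𝓡 n) r
        (fun z : (ℝ × (ℂ × ℂ)) × N => F z.2) ((0 : ℝ × (ℂ × ℂ)), y) :=
      (F.contMDiff.contMDiffAt).comp _ contMDiffAt_snd
    have s1 : ContMDiffAt (𝓘(ℝ, ℝ × (ℂ × ℂ)).prod (𝓡 n)) 𝓘(ℝ, (ℝ × (ℂ × ℂ)) × ℂ) r
        (fun z : (ℝ × (ℂ × ℂ)) × N => (z.1, b (F z.2))) ((0 : ℝ × (ℂ × ℂ)), y) := by
      refine ContMDiffAt.prodMk_space contMDiffAt_fst ?_
      exact ContMDiffAt.comp (g := b) (f := fun z : (ℝ × (ℂ × ℂ)) × N => F z.2) _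
        ((hb.of_le hr).contMDiffAt) s0
    have s2 : ContMDiffAt (𝓘(ℝ, ℝ × (ℂ × ℂ)).prod (𝓡 n)) 𝓘(ℝ, ℝ) r
        (fun z : (ℝ × (ℂ × ℂ)) × N => T q z.1 (b (F z.2))) ((0 : ℝ × (ℂ × ℂ)), y) := by
      have h2 : ContDiffAt ℝ r (fun z : (ℝ × (ℂ × ℂ)) × ℂ => T q z.1 z.2)
          ((0 : ℝ × (ℂ × ℂ)), b (F y)) :=
        (T_smooth q (hslit 0 (by rw [norm_zero]; exact hκ0) (F y))).of_le hr
      exact h2.comp_contMDiffAt (f := fun z : (ℝ × (ℂ × ℂ)) × N => (z.1, b (F z.2))) s1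
    have s3 := s2.prodMk s0
    exact ContMDiffAt.comp (g := fun q : ℝ × N => ψ q.1 q.2)
      (f := fun z : (ℝ × (ℂ × ℂ)) × N => (T q z.1 (b (F z.2)), F z.2)) _
      ((hψ.smooth.of_le hr).contMDiffAt) s3
  · intro s hs y
    rw [hH1 s hs y, hbd]

end Pool.Agent.TH290.CL
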