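import Pool.Agent.TH290.CL.Ex

/-!
# Elliptic Moebius maps close to the identity with a given number of turns
-/

set_option autoImplicit false

open scoped ComplexConjugate

namespace Pool.Agent.TH290.CL

open Pool.Agent.W335.SCM

/-- the step of the lift -/
theorem Th_step {s h : ℝ} (h0 : 0 ≤ s) (h1 : s < 1) (hh0 : 0 ≤ h) (hh1 : h ≤ 1) {P Q : ℂ}
    (hP : P = (ex (h / 2) - s ^ 2 * conj (ex (h / 2))) / (1 - s ^ 2) - 1)
    (hQ : Q = s * (ex (h / 2) - conj (ex (h / 2))) / (1 - s ^ 2)) (hPQ : ‖P‖ + ‖Q‖ < 1) (t : ℝ) :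
    Th s (t + h) = Th s t + Complex.arg (1 + P + Q * conj (ex (Th s t))) / Real.pi := by
  have hpi := Real.pi_pos
  have hst := step h0 h1 (norm_ex (h / 2)) (norm_ex t) hP hQ
  rw [← ex_Th h0 h1 t] at hst
  set w : ℂ := ex (Th s t) with hw
  set ζ : ℂ := 1 + P + Q * conj w with hζ
  have hwn : ‖w‖ = 1 := norm_ex _
  have hwc : ‖Q * conj w‖ = ‖Q‖ := by rw [norm_mul, RCLike.norm_conj, hwn, mul_one]
  have hre : 0 < ζ.re := by
    have h2 : ‖P + Q * conj w‖ < 1 := by
      refine (norm_add_le _ _).trans_lt ?_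
      rw [hwc]
      exact hPQ
    have h3 := (abs_le.1 (Complex.abs_re_le_norm (P + Q * conj w))).1
    have h4 : ζ.re = 1 + (P + Q * conj w).re := by
      rw [hζ]
      simp only [Complex.add_re, Complex.one_re]
      ring
    rw [h4]
    linarith
  have hζ0 : ζ ≠ 0 := by
    intro h
    rw [h] at hre
    simp at hre
  have hs2 : 0 < 1 - s ^ 2 := by nlinarith
  -- the imaginary part
  have hex : ex (h / 2) = ((Real.cos (Real.pi * h) : ℝ) : ℂ) + ((Real.sin (Real.pi * h) : ℝ) : ℂ) * Complex.I := by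
    rw [ex_eq]
    have : 2 * Real.pi * (h / 2) = Real.pi * h := by ring
    rw [this, Complex.exp_mul_I]
    push_cast
    rfl
  have hexc : conj (ex (h / 2)) = ((Real.cos (Real.pi * h) : ℝ) : ℂ) - ((Real.sin (Real.pi * h) : ℝ) : ℂ) * Complex.I := by
    rw [hex, map_add, map_mul, Complex.conj_ofReal, Complex.conj_ofReal, Complex.conj_I]
    ring
  set C : ℝ := Real.cos (Real.pi * h) with hC
  set S : ℝ := Real.sin (Real.pi * h) with hS
  have hS0 : 0 ≤ S := by
    apply Real.sin_nonneg_of_nonneg_of_le_pi (by positivity)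
    nlinarith
  have n5 : (1 : ℂ) - (s : ℂ) ^ 2 ≠ 0 := by
    intro h
    have h2 : (1 : ℝ) - s ^ 2 = 0 := by exact_mod_cast h
    linarith
  have hP2 : 1 + P = ((C : ℝ) : ℂ) + ((S * (1 + s ^ 2) / (1 - s ^ 2) : ℝ) : ℂ) * Complex.I := by
    rw [hP, hexc, hex]
    push_cast
    field_simp
    ring
  have hQ2 : Q = ((2 * s * S / (1 - s ^ 2) : ℝ) : ℂ) * Complex.I := by
    rw [hQ, hexc, hex]
    push_cast
    field_simp
    ring
  have him : 0 ≤ ζ.im := by
    have h2 : ζ.im = S * (1 + s ^ 2) / (1 - s ^ 2) + 2 * s * S / (1 - s ^ 2) * w.re := by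
      rw [hζ, hP2, hQ2]
      generalize S * (1 + s ^ 2) / (1 - s ^ 2) = A
      generalize 2 * s * S / (1 - s ^ 2) = B
      simp only [Complex.add_im, Complex.mul_im, Complex.mul_re, Complex.ofReal_im,
        Complex.ofReal_re, Complex.I_im, Complex.I_re, Complex.conj_im, Complex.conj_re]
      ring
    have h3 : -1 ≤ w.re := by
      have := (abs_le.1 (Complex.abs_re_le_norm w)).1
      rw [hwn] at this
      exact this
    have h4 : ζ.im = (S / (1 - s ^ 2)) * ((1 + s ^ 2) + 2 * s * w.re) := by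
      rw [h2]
      ring
    rw [h4]
    apply mul_nonneg (div_nonneg hS0 hs2.le)
    nlinarith [mul_nonneg h0 (by linarith : (0 : ℝ) ≤ w.re + 1), sq_nonneg (1 - s)]
  have harg0 : 0 ≤ Complex.arg ζ := Complex.arg_nonneg_iff.2 him
  have harg1 : Complex.arg ζ < Real.pi / 2 := by
    have := Complex.abs_arg_lt_pi_div_two_iff.2 (Or.inl hre)
    exact (abs_lt.1 this).2
  -- comparison modulo 1
  have h2 : ex (Th s (t + h)) = ex (Th s t + Complex.arg ζ / Real.pi) := by
    rw [ex_Th h0 h1, ex_add t h, ex_add, ex_arg hζ0, ← hw, hst]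
    congr 1
    have : h = h / 2 + h / 2 := by ring
    conv_lhs => rw [this, ex_add]
    ring
  obtain ⟨k, hk⟩ := ex_eq_ex h2
  have hm1 : Th s t ≤ Th s (t + h) := Th_mono h0 h1 (by linarith)
  have hm2 : Th s (t + h) ≤ Th s t + 1 := by
    have h3 := Th_add_int (s := s) t 1
    rw [Int.cast_one] at h3
    rw [← h3]
    exact Th_mono h0 h1 (by linarith)
  have ha0 : 0 ≤ Complex.arg ζ / Real.pi := div_nonneg harg0 hpi.le
  have ha1 : Complex.arg ζ / Real.pi < 1 / 2 := by
    rw [div_lt_iff₀ hpi]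
    linarith
  have hk1 : (k : ℝ) ≤ 1 := by linarith
  have hk2 : (-1 : ℝ) < k := by linarith
  have hk3 : k ≤ 1 := by exact_mod_cast hk1
  have hk4 : -1 < k := by exact_mod_cast hk2
  have hk5 : k = 0 ∨ k = 1 := by omega
  rcases hk5 with rfl | rfl
  · rw [Int.cast_zero] at hk
    linarith
  · exfalso
    rw [Int.cast_one] at hk
    have h6 : Th s (t + h) = Th s t + 1 := by linarith
    have h7 : Complex.arg ζ = 0 := by
      have : Complex.arg ζ / Real.pi = 0 := by linarith
      have h8 := (div_eq_zero_iff.1 this)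
      rcases h8 with h8 | h8
      · exact h8
      · exact absurd h8 hpi.ne'
    -- then `h = 1` and the imaginary part is positive or the point is fixed
    have h8 : ex (Th s (t + h)) = ex (Th s t) := by
      rw [h6]
      have := ex_add_int (Th s t) 1
      rwa [Int.cast_one] at this
    by_cases hlt : h < 1
    · have h9 : Th s (t + h) < Th s (t + 1) ∨ Th s (t + h) = Th s (t + 1) :=
        (Th_mono h0 h1 (by linarith : t + h ≤ t + 1)).lt_or_eq
      have h10 : Th s (t + 1) = Th s t + 1 := by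
        have h3 := Th_add_int (s := s) t 1
        rwa [Int.cast_one] at h3
      -- injectivity of `Mm` on the circle
      have h11 : Mm s (ex (t + h)) = Mm s (ex t) := by
        rw [← ex_Th h0 h1, ← ex_Th h0 h1, h8]
      have h12 : ex (t + h) = ex t := by
        have n1 := one_sub_ne h0 h1 (norm_ex (t + h))
        have n2 := one_sub_ne h0 h1 (norm_ex t)
        unfold Mm at h11
        rw [div_eq_div_iff n1 n2] at h11
        have h13 : (1 - (s : ℂ) ^ 2) * (ex (t + h) - ex t) = 0 := by linear_combination h11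
        rcases mul_eq_zero.1 h13 with h14 | h14
        · exact absurd h14 n5
        · exact sub_eq_zero.1 h14
      obtain ⟨l, hl⟩ := ex_eq_ex h12
      have hl2 : h = l := by linarith
      have hl3 : (l : ℝ) < 1 := by rw [← hl2]; exact hlt
      have hl4 : (0 : ℝ) ≤ l := by rw [← hl2]; exact hh0
      have hl5 : l < 1 := by exact_mod_cast hl3
      have hl6 : 0 ≤ l := by exact_mod_cast hl4
      have hl7 : l = 0 := by omega
      rw [hl7, Int.cast_zero] at hl2
      rw [hl2, add_zero] at h6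
      linarith
    · have h9 : h = 1 := le_antisymm hh1 (not_lt.1 hlt)
      have h10 : ex (h / 2) = -1 := by
        rw [hex, hC, hS, h9, mul_one, Real.cos_pi, Real.sin_pi]
        simp
      have h11 : P = -2 := by
        rw [hP, h10, map_neg, map_one]
        field_simp
        ring
      have h12 : ‖P‖ = 2 := by
        rw [h11, norm_neg]
        simp
      have := norm_nonneg Q
      linarith

/-- Elliptic Moebius maps close to the identity, with `c` turns in `m` steps. -/
theorem moebc (c : ℕ) (hc : 1 ≤ c) (κ : ℝ) (hκ : 0 < κ) :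
    ∃ (δ : ℝ) (M : ℕ), 0 < δ ∧ ∀ m : ℕ, M ≤ m → ∃ (P Q : ℂ) (θ : ℕ → ℝ), ‖(P, Q)‖ < κ ∧
      θ 0 = 0 ∧
      (∀ i, θ (i + 1) = θ i + Complex.arg (1 + P + Q * conj (ex (θ i))) / Real.pi) ∧
      (∀ i l : ℕ, i * c = m * l → θ i = l) ∧
      ∀ i : ℕ, (∀ l : ℕ, i * c ≠ m * l) → ∀ t : ℤ, δ ≤ |θ i - t| := by
  obtain ⟨κ', hκ', hκ'1, hκ'2⟩ : ∃ κ' : ℝ, 0 < κ' ∧ κ' ≤ κ ∧ κ' ≤ 1 / 4 :=
    ⟨min κ (1 / 4), lt_min hκ (by norm_num), min_le_left _ _, min_le_right _ _⟩
  have hpi := Real.pi_pos
  have hpi4 := Real.pi_le_four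
  have hc1 : (1 : ℝ) ≤ c := by exact_mod_cast hc
  have hc0 : (0 : ℝ) < c := by linarith
  set b : ℝ := κ' / (32 * c) with hb
  have hb0 : 0 < b := by positivity
  have hbc : b * c = κ' / 32 := by
    rw [hb]
    field_simp
  obtain ⟨M, hM⟩ := exists_nat_gt (max (2 / b) (max (4 * c) (32 * c / κ')))
  refine ⟨4 * b / (1 + 4 * b) / 8, M, by positivity, fun m hm => ?_⟩
  have hmr : (M : ℝ) ≤ m := by exact_mod_cast hm
  have hm1 : 2 / b < m := lt_of_lt_of_le (lt_of_le_of_lt (le_max_left _ _) hM) hmr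
  have hm2 : 4 * (c : ℝ) < m :=
    lt_of_lt_of_le (lt_of_le_of_lt ((le_max_left _ _).trans (le_max_right _ _)) hM) hmr
  have hm3 : 32 * c / κ' < m :=
    lt_of_lt_of_le (lt_of_le_of_lt ((le_max_right _ _).trans (le_max_right _ _)) hM) hmr
  have hm0 : (0 : ℝ) < m := by linarith
  have hbm : 2 < b * m := by
    rw [div_lt_iff₀ hb0] at hm1
    linarith
  set s : ℝ := 1 - 1 / (b * m) with hs
  have hbm0 : 0 < b * m := by positivity
  have hs0 : 0 ≤ s := by
    rw [hs, sub_nonneg, div_le_one hbm0]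
    linarith
  have hs1 : s < 1 := by
    rw [hs]
    have : 0 < 1 / (b * m) := by positivity
    linarith
  set h : ℝ := c / m with hh
  have hh0 : 0 ≤ h := by positivity
  have hh1 : h ≤ 1 := by
    rw [hh, div_le_one hm0]
    linarith
  set P : ℂ := (ex (h / 2) - s ^ 2 * conj (ex (h / 2))) / (1 - s ^ 2) - 1 with hP
  set Q : ℂ := s * (ex (h / 2) - conj (ex (h / 2))) / (1 - s ^ 2) with hQ
  have hsq : 1 / (b * m) ≤ 1 - s ^ 2 := by
    have : 1 / (b * m) = 1 - s := by rw [hs]; ring
    rw [this]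
    nlinarith
  have hsq0 : 0 < 1 - s ^ 2 := lt_of_lt_of_le (by positivity) hsq
  set x : ℝ := Real.pi * h with hx
  have hx0 : 0 ≤ x := by positivity
  have hx1 : x ≤ 1 := by
    have h1 : x = Real.pi * c / m := by rw [hx, hh]; ring
    rw [h1, div_le_one hm0]
    nlinarith
  have hsin : Real.sin x ≤ x := Real.sin_le hx0
  have hsin0 : 0 ≤ Real.sin x := by
    apply Real.sin_nonneg_of_nonneg_of_le_pi hx0
    have := Real.pi_gt_three
    linarith
  have hcos : 1 - Real.cos x ≤ x ^ 2 / 2 := by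
    have := Real.one_sub_sq_div_two_le_cos (x := x)
    linarith
  have hcos0 : 0 ≤ 1 - Real.cos x := by
    have := Real.cos_le_one x
    linarith
  have hinv : 1 / (1 - s ^ 2) ≤ b * m := by
    rw [div_le_iff₀ hsq0]
    have : b * m * (1 / (b * m)) = 1 := by field_simp
    nlinarith
  have hex : ex (h / 2) = ((Real.cos x : ℝ) : ℂ) + ((Real.sin x : ℝ) : ℂ) * Complex.I := by
    rw [ex_eq]
    have : 2 * Real.pi * (h / 2) = x := by rw [hx]; ring
    rw [this, Complex.exp_mul_I]
    push_cast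
    rfl
  have hexc : conj (ex (h / 2)) = ((Real.cos x : ℝ) : ℂ) - ((Real.sin x : ℝ) : ℂ) * Complex.I := by
    rw [hex, map_add, map_mul, Complex.conj_ofReal, Complex.conj_ofReal, Complex.conj_I]
    ring
  have hsinb : Real.sin x * (1 / (1 - s ^ 2)) ≤ 4 * (b * c) := by
    calc Real.sin x * (1 / (1 - s ^ 2)) ≤ x * (b * m) :=
          mul_le_mul hsin hinv (by positivity) hx0
      _ = Real.pi * (b * c) := by
          rw [hx, hh]
          field_simp
      _ ≤ 4 * (b * c) := by
          have : 0 ≤ b * c := by positivity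
          nlinarith
  have hsinb0 : 0 ≤ Real.sin x * (1 / (1 - s ^ 2)) := by positivity
  have n5 : (1 : ℂ) - (s : ℂ) ^ 2 ≠ 0 := by
    intro h
    have h2 : (1 : ℝ) - s ^ 2 = 0 := by exact_mod_cast h
    linarith
  have hq1 : ‖Q‖ ≤ κ' / 4 := by
    have e1 : Q = ((2 * s * (Real.sin x * (1 / (1 - s ^ 2))) : ℝ) : ℂ) * Complex.I := by
      rw [hQ, hexc, hex]
      push_cast
      field_simp
      ring
    rw [e1, norm_mul, Complex.norm_I, mul_one, Complex.norm_real,
      Real.norm_of_nonneg (by positivity)]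
    nlinarith
  have hp1 : ‖P‖ ≤ κ' / 2 := by
    have e1 : P = ((-(1 - Real.cos x) : ℝ) : ℂ) +
        (((1 + s ^ 2) * (Real.sin x * (1 / (1 - s ^ 2))) : ℝ) : ℂ) * Complex.I := by
      rw [hP, hexc, hex]
      push_cast
      generalize (Complex.cos x) = A
      generalize (Complex.sin x) = B
      field_simp
      ring
    rw [e1]
    refine (norm_add_le _ _).trans ?_
    rw [norm_mul, Complex.norm_I, mul_one, Complex.norm_real, Complex.norm_real, norm_neg,
      Real.norm_of_nonneg hcos0, Real.norm_of_nonneg (by positivity)]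
    have h5 : x ^ 2 / 2 ≤ κ' / 16 := by
      have h6 : x = Real.pi * c / m := by rw [hx, hh]; ring
      have h7 : x ≤ κ' / 8 := by
        rw [h6, div_le_iff₀ hm0]
        rw [div_lt_iff₀ hκ'] at hm3
        nlinarith
      nlinarith
    have h7 : s ^ 2 ≤ 1 := by nlinarith
    nlinarith
  have hPQ : ‖P‖ + ‖Q‖ < 1 := by linarith
  have hstep := fun t => Th_step hs0 hs1 hh0 hh1 hP hQ hPQ t
  refine ⟨P, Q, fun i => Th s (i * h), ?_, ?_, ?_, ?_, ?_⟩
  · rw [Prod.norm_def]
    apply max_lt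
    · show ‖P‖ < κ
      linarith
    · show ‖Q‖ < κ
      linarith
  · have := Th_int hs1 (s := s) 0
    simp only [Nat.cast_zero, zero_mul]
    simpa using this
  · intro i
    have h5 := hstep (i * h)
    have h6 : ((i + 1 : ℕ) : ℝ) * h = i * h + h := by push_cast; ring
    show Th s (((i + 1 : ℕ) : ℝ) * h) = _
    rw [h6]
    exact h5
  · intro i l hil
    have h5 : (i : ℝ) * h = ((l : ℤ) : ℝ) := by
      have h6 : (i : ℝ) * c = m * l := by exact_mod_cast hil
      rw [hh, Int.cast_natCast]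
      field_simp
      linarith
    show Th s (i * h) = l
    rw [h5, Th_int hs1]
    simp
  · intro i hil t
    have h5 : ∀ t : ℤ, 1 / (m : ℝ) ≤ |i * h - t| := by
      intro t
      have h6 : (i : ℝ) * h - t = ((i * c - m * t : ℤ) : ℝ) / m := by
        rw [hh]
        push_cast
        field_simp
      rw [h6, abs_div, abs_of_pos hm0]
      apply div_le_div_of_nonneg_right _ hm0.le
      have h7 : ((i : ℤ) * c - m * t) ≠ 0 := by
        intro h0
        have h8 : 0 ≤ t := by
          by_contra hneg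
          push Not at hneg
          have h9 : (0 : ℤ) < m := by exact_mod_cast hm0
          have h10 : (0 : ℤ) ≤ (i : ℤ) * c := by positivity
          nlinarith
        obtain ⟨l, rfl⟩ := Int.eq_ofNat_of_zero_le h8
        apply hil l
        have h9 : (i : ℤ) * c = m * l := by linarith
        exact_mod_cast h9
      have h8 : 1 ≤ |((i : ℤ) * c - m * t)| := Int.one_le_abs h7
      have h9 : ((1 : ℤ) : ℝ) ≤ ((|((i : ℤ) * c - m * t)| : ℤ) : ℝ) := by exact_mod_cast h8
      rw [Int.cast_one, Int.cast_abs] at h9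
      exact h9
    have h6 : 4 / (m : ℝ) ≤ ‖ex (i * h) - 1‖ := by
      have := le_norm_ex_sub_one h5
      have h7 : 4 / (m : ℝ) = 4 * (1 / m) := by ring
      rw [h7]
      exact this
    have h13 := norm_Mm_sub hs0 hs1 (norm_ex (i * h)) (by positivity) h6
    rw [← ex_Th hs0 hs1] at h13
    have h14 := norm_ex_sub_one_le (Th s (i * h)) t
    have h15 : 1 - s = 1 / (b * m) := by rw [hs]; ring
    rw [h15] at h13
    have h16 : 4 / (m : ℝ) / (1 / (b * m) + 4 / m) = 4 * b / (1 + 4 * b) := by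
      field_simp
    rw [h16] at h13
    show 4 * b / (1 + 4 * b) / 8 ≤ |Th s (i * h) - t|
    linarith

end Pool.Agent.TH290.CL
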