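import Mathlib

/-!
# Choice of coprime return pairs
-/

set_option autoImplicit false

namespace Pool.Agent.TH290.CL

theorem coprime_aux {i j D E M K q p m k l : ℤ} (hij : IsCoprime i j) (hM : D ^ 2 ∣ M)
    (hK : D ^ 2 ∣ K) (hD : D ≠ 0) (hl : l = D * E - Int.sign D)
    (hm : m = M + i * l) (hk : k = K - j * l) (hkm : k * q - p * m = |D|) : IsCoprime m k := by
  rw [Int.isCoprime_iff_gcd_eq_one]
  by_contra hne
  obtain ⟨r, hr, hrd⟩ := Nat.exists_prime_and_dvd hne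
  have h1 : (r : ℤ) ∣ m := (Int.natCast_dvd_natCast.2 hrd).trans (Int.gcd_dvd_left ..)
  have h2 : (r : ℤ) ∣ k := (Int.natCast_dvd_natCast.2 hrd).trans (Int.gcd_dvd_right ..)
  have hrp : Prime (r : ℤ) := Nat.prime_iff_prime_int.1 hr
  have h3 : (r : ℤ) ∣ |D| := by
    rw [← hkm]
    exact dvd_sub (h2.mul_right q) (h1.mul_left p)
  have h4 : (r : ℤ) ∣ D := (dvd_abs _ _).1 h3
  have h5 : (r : ℤ) ∣ D ^ 2 := dvd_pow h4 (by norm_num)
  have h6 : (r : ℤ) ∣ i * l := by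
    have : i * l = m - M := by rw [hm]; ring
    rw [this]
    exact dvd_sub h1 (h5.trans hM)
  have h7 : (r : ℤ) ∣ j * l := by
    have : j * l = K - k := by rw [hk]; ring
    rw [this]
    exact dvd_sub (h5.trans hK) h2
  have h8 : ¬ (r : ℤ) ∣ l := by
    intro h
    have h9 : (r : ℤ) ∣ Int.sign D := by
      have : Int.sign D = D * E - l := by rw [hl]; ring
      rw [this]
      exact dvd_sub (h4.mul_right E) h
    have h10 : IsUnit (Int.sign D) := by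
      rcases lt_or_gt_of_ne hD with h | h
      · rw [Int.sign_eq_neg_one_of_neg h]
        exact isUnit_one.neg
      · rw [Int.sign_eq_one_of_pos h]
        exact isUnit_one
    exact hrp.not_isUnit (isUnit_of_dvd_unit h9 h10)
  have h9 : (r : ℤ) ∣ i := (hrp.dvd_or_dvd h6).resolve_right h8
  have h10 : (r : ℤ) ∣ j := (hrp.dvd_or_dvd h7).resolve_right h8
  exact hrp.not_isUnit (hij.isUnit_of_dvd' h9 h10)

theorem num (α : ℝ) (i : ℕ) (j : ℤ) (hij : IsCoprime (i : ℤ) j) (hτ : (i : ℝ) * α + j ≠ 0)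
    (κ : ℝ) (hκ : 0 < κ) :
    ∃ (q : ℕ) (p D : ℤ), 1 ≤ q ∧ D ≠ 0 ∧ |(p : ℝ) / q - α| < κ ∧
      ∀ m₀ : ℕ, ∃ M₁ : ℕ, ∀ (M : ℕ) (K : ℤ), M₁ ≤ M → D ^ 2 ∣ (M : ℤ) → D ^ 2 ∣ K →
        |(M : ℝ) * α - K| ≤ 1 →
        ∃ (m : ℕ) (k l : ℤ), m₀ ≤ m ∧ (m : ℤ) = M + i * l ∧ k = K - j * l ∧
          k * q - p * m = |D| ∧ IsCoprime (m : ℤ) k := by
  set τ : ℝ := (i : ℝ) * α + j with hτd
  have hτ0 : 0 < |τ| := abs_pos.2 hτ
  have hi0 : (0 : ℝ) ≤ i := Nat.cast_nonneg _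
  obtain ⟨κ', hκ', hκ1, hκ2⟩ : ∃ κ' : ℝ, 0 < κ' ∧ κ' ≤ κ ∧ κ' ≤ |τ| / (8 * (i + 1)) :=
    ⟨min κ (|τ| / (8 * (i + 1))), lt_min hκ (by positivity), min_le_left _ _, min_le_right _ _⟩
  obtain ⟨q, hq⟩ := exists_nat_gt (max 1 (1 / κ'))
  have hq1 : (1 : ℝ) < q := (le_max_left _ _).trans_lt hq
  have hq2 : 1 / κ' < q := (le_max_right _ _).trans_lt hq
  have hq0 : (0 : ℝ) < q := by linarith
  set p : ℤ := round (α * q) with hp
  have hpq : |(p : ℝ) / q - α| < κ' := by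
    have h1 : |α * q - p| ≤ 1 / 2 := abs_sub_round _
    have h2 : (p : ℝ) / q - α = -(α * q - p) / q := by field_simp; ring
    rw [h2, abs_div, abs_neg, abs_of_pos hq0, div_lt_iff₀ hq0]
    rw [div_lt_iff₀ hκ'] at hq2
    linarith
  have hiκ : (i : ℝ) * κ' ≤ |τ| / 8 := by
    have h1 : (i : ℝ) * κ' ≤ i * (|τ| / (8 * (i + 1))) := mul_le_mul_of_nonneg_left hκ2 hi0
    have h2 : (i : ℝ) * (|τ| / (8 * (i + 1))) ≤ |τ| / 8 := by
      rw [← mul_div_assoc, div_le_div_iff₀ (by positivity) (by norm_num)]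
      nlinarith
    linarith
  set D : ℤ := j * q + p * i with hD
  have hDr : (D : ℝ) = q * (τ + i * ((p : ℝ) / q - α)) := by
    rw [hD, hτd]
    push_cast
    field_simp
    ring
  have hDl : (q : ℝ) * (7 * |τ| / 8) ≤ |(D : ℝ)| := by
    rw [hDr, abs_mul, abs_of_pos hq0]
    apply mul_le_mul_of_nonneg_left _ hq0.le
    have h1 : |(i : ℝ) * ((p : ℝ) / q - α)| ≤ |τ| / 8 := by
      rw [abs_mul, abs_of_nonneg hi0]
      exact (mul_le_mul_of_nonneg_left hpq.le hi0).trans hiκ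
    have h2 : |τ| ≤ |τ + i * ((p : ℝ) / q - α)| + |(i : ℝ) * ((p : ℝ) / q - α)| := by
      have := abs_sub (τ + i * ((p : ℝ) / q - α)) (i * ((p : ℝ) / q - α))
      rwa [add_sub_cancel_right] at this
    linarith
  have hD0r : 0 < |(D : ℝ)| := lt_of_lt_of_le (by positivity) hDl
  have hD0 : D ≠ 0 := by
    intro h
    rw [h] at hD0r
    simp at hD0r
  refine ⟨q, p, D, by exact_mod_cast hq1.le, hD0, hpq.trans_le hκ1, ?_⟩
  intro m₀
  set C : ℝ := 8 * i / (7 * |τ|) + i with hC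
  have hC0 : 0 ≤ C := by positivity
  obtain ⟨M₁, hM₁⟩ := exists_nat_gt (2 * (C + m₀))
  refine ⟨M₁, fun M K hM hDM hDK hMK => ?_⟩
  have hMr : (M₁ : ℝ) ≤ M := by exact_mod_cast hM
  obtain ⟨M', hM'⟩ := hDM
  obtain ⟨K', hK'⟩ := hDK
  obtain ⟨E, hE⟩ : ∃ E : ℤ, E = K' * q - p * M' := ⟨_, rfl⟩
  have hE2 : K * q - p * M = D ^ 2 * E := by rw [hE, hM', hK']; ring
  obtain ⟨l, hl⟩ : ∃ l : ℤ, l = D * E - Int.sign D := ⟨_, rfl⟩
  have hDs : D * Int.sign D = |D| := by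
    rw [mul_comm]
    exact Int.sign_mul_self_eq_abs D
  have hlD : l * D = (K * q - p * M) - |D| := by
    rw [hE2, hl, ← hDs]
    ring
  have hkm : (K - j * l) * q - p * (M + i * l) = |D| := by
    have h1 : (K - j * l) * q - p * (M + i * l) = (K * q - p * M) - l * D := by rw [hD]; ring
    rw [h1, hlD]
    ring
  -- lower bound
  have hE3 : |((K * q - p * M : ℤ) : ℝ)| ≤ q * (1 + M * κ') := by
    have h1 : ((K * q - p * M : ℤ) : ℝ) = q * ((K - M * α) + M * (α - (p : ℝ) / q)) := by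
      push_cast
      field_simp
      ring
    rw [h1, abs_mul, abs_of_pos hq0]
    apply mul_le_mul_of_nonneg_left _ hq0.le
    refine (abs_add_le _ _).trans ?_
    rw [abs_mul (M : ℝ), abs_of_nonneg (a := (M : ℝ)) (Nat.cast_nonneg M)]
    rw [abs_sub_comm] at hMK
    rw [abs_sub_comm] at hpq
    have := mul_le_mul_of_nonneg_left hpq.le (Nat.cast_nonneg (α := ℝ) M)
    linarith
  have hl2 : |(l : ℝ)| * |(D : ℝ)| ≤ q * (1 + M * κ') + |(D : ℝ)| := by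
    rw [← abs_mul]
    have h1 : (l : ℝ) * D = ((K * q - p * M : ℤ) : ℝ) - |(D : ℝ)| := by
      have := congrArg (fun x : ℤ => (x : ℝ)) hlD
      push_cast at this ⊢
      linarith
    rw [h1]
    refine (abs_sub _ _).trans ?_
    rw [abs_abs]
    linarith
  have hl3 : |(l : ℝ)| ≤ 8 / (7 * |τ|) * (1 + M * κ') + 1 := by
    have h1 : (q : ℝ) * (1 + M * κ') ≤ 8 / (7 * |τ|) * (1 + M * κ') * |(D : ℝ)| := by
      have h2 : (0 : ℝ) ≤ 8 / (7 * |τ|) * (1 + M * κ') := by positivity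
      have h3 := mul_le_mul_of_nonneg_left hDl h2
      have h4 : 8 / (7 * |τ|) * (1 + M * κ') * (q * (7 * |τ| / 8)) = q * (1 + M * κ') := by
        field_simp
      linarith
    have h5 : |(l : ℝ)| * |(D : ℝ)| ≤ (8 / (7 * |τ|) * (1 + M * κ') + 1) * |(D : ℝ)| := by
      linarith
    exact le_of_mul_le_mul_right h5 hD0r
  have hil : (i : ℝ) * |(l : ℝ)| ≤ C + M / 7 := by
    have h1 := mul_le_mul_of_nonneg_left hl3 hi0
    have h2 : (i : ℝ) * (8 / (7 * |τ|) * (1 + M * κ') + 1) =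
        C + 8 / (7 * |τ|) * M * (i * κ') := by
      rw [hC]
      ring
    have h3 : 8 / (7 * |τ|) * M * (i * κ') ≤ 8 / (7 * |τ|) * M * (|τ| / 8) :=
      mul_le_mul_of_nonneg_left hiκ (by positivity)
    have h4 : 8 / (7 * |τ|) * M * (|τ| / 8) = M / 7 := by
      field_simp
    linarith
  have hlow : (m₀ : ℝ) ≤ M + i * l := by
    have h1 : -((i : ℝ) * |(l : ℝ)|) ≤ i * l := by
      have := neg_abs_le ((l : ℝ))
      nlinarith
    have h2 : (0 : ℝ) ≤ m₀ := Nat.cast_nonneg _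
    nlinarith
  have hlow2 : (m₀ : ℤ) ≤ M + i * l := by
    have : ((m₀ : ℤ) : ℝ) ≤ ((M + i * l : ℤ) : ℝ) := by
      push_cast
      exact hlow
    exact_mod_cast this
  have hnn : (0 : ℤ) ≤ M + i * l := le_trans (by positivity) hlow2
  obtain ⟨m, hm⟩ := Int.eq_ofNat_of_zero_le hnn
  refine ⟨m, K - j * l, l, ?_, hm.symm, rfl, ?_, ?_⟩
  · rw [hm] at hlow2
    exact_mod_cast hlow2
  · rw [← hm]
    exact hkm
  · exact coprime_aux hij ⟨M', hM'⟩ ⟨K', hK'⟩ hD0 hl hm.symm rfl (by rw [← hm]; exact hkm)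

end Pool.Agent.TH290.CL
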