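import Pool.Agent.W564.SC.Lib
import Pool.Agent.TH290.CL.Fam
import Pool.Agent.TH290.CL.Moeb
import Pool.Agent.TH290.CL.Num
import Pool.Agent.TH290.CL.Rec

/-!
# The closing lemma for roots of suspension flows on invariant sets
-/

set_option autoImplicit false
set_option linter.unusedSectionVars false

open scoped Manifold ContDiff Topology NNReal ComplexConjugate
open Filter Set Metric

universe u

namespace Pool.Agent.TH290.CL

open Pool.Agent.H718R2.G Pool.Agent.W564.SC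

/-- On the invariant set `K` the diffeomorphism `F` commutes with the smooth flow `ψ` and is a root of
it: `F^i = ψ_(i α + j)` with coprime `i ≥ 0` and `j`; the smooth function `a` is on `K` a common
eigenfunction of modulus one: `a (ψ_t y) = e(t) a(y)` and `a (F y) = e(α) a(y)`, `e(t) = exp(2 π i t)`. -/
structure RootOn (n : ℕ) (N : Type*) [TopologicalSpace N] [ChartedSpace (V n) N] (r : ℕ∞)
    (F : DiffM n N r) (ψ : ℝ → N → N) (a : N → ℂ) (K : Set N) (α : ℝ) (i : ℕ) (j : ℤ) : Prop where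
  flow : IsFlow n N ψ
  smooth : ContMDiff (𝓡 n) 𝓘(ℝ, ℂ) ∞ a
  inv : ∀ y ∈ K, F y ∈ K
  inv' : ∀ y ∈ K, F.symm y ∈ K
  invψ : ∀ y ∈ K, ∀ t, ψ t y ∈ K
  comm : ∀ y ∈ K, ∀ t, F (ψ t y) = ψ t (F y)
  norm : ∀ y ∈ K, ‖a y‖ = 1
  eigψ : ∀ y ∈ K, ∀ t, a (ψ t y) = ex t * a y
  eigF : ∀ y ∈ K, a (F y) = ex α * a y
  cop : IsCoprime (i : ℤ) j
  root : ∀ y ∈ K, F^[i] y = ψ (i * α + j) y

section

variable {n : ℕ} {N : Type u} [TopologicalSpace N] [ChartedSpace (V n) N]
  {r : ℕ∞} {F : DiffM n N r} {ψ : ℝ → N → N} {a : N → ℂ} {K : Set N} {α : ℝ} {i : ℕ} {j : ℤ}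
  (h : RootOn n N r F ψ a K α i j)

include h

theorem RootOn.iter_mem (m : ℕ) : ∀ y ∈ K, F^[m] y ∈ K := by
  induction m with
  | zero => intro y hy; exact hy
  | succ m ih =>
    intro y hy
    rw [Function.iterate_succ_apply']
    exact h.inv _ (ih y hy)

theorem RootOn.iter_comm (m : ℕ) : ∀ y ∈ K, ∀ t, F^[m] (ψ t y) = ψ t (F^[m] y) := by
  induction m with
  | zero => intro y hy t; rfl
  | succ m ih =>
    intro y hy t
    rw [Function.iterate_succ_apply', ih y hy, h.comm _ (h.iter_mem m y hy),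
      Function.iterate_succ_apply']

theorem RootOn.iter_root (l : ℕ) : ∀ y ∈ K, F^[i * l] y = ψ (l * (i * α + j)) y := by
  induction l with
  | zero =>
    intro y hy
    rw [mul_zero, Nat.cast_zero, zero_mul, h.flow.zero]
    rfl
  | succ l ih =>
    intro y hy
    have e : i * (l + 1) = i * l + i := by ring
    rw [e, Function.iterate_add_apply, h.root y hy, h.iter_comm _ y hy, ih y hy, ← h.flow.add]
    congr 1
    push_cast
    ring

theorem RootOn.move {m M : ℕ} {k K' l : ℤ} (hm : (m : ℤ) = M + i * l) (hk : k = K' - j * l)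
    (y : N) (hy : y ∈ K) : ψ (k - m * α) (F^[m] y) = ψ (K' - M * α) (F^[M] y) := by
  have hmr : (m : ℝ) = M + i * l := by
    have := congrArg (fun x : ℤ => (x : ℝ)) hm
    push_cast at this
    exact this
  have hkr : (k : ℝ) = K' - j * l := by
    have := congrArg (fun x : ℤ => (x : ℝ)) hk
    push_cast at this
    exact this
  rcases le_total 0 l with hl | hl
  · obtain ⟨l', rfl⟩ := Int.eq_ofNat_of_zero_le hl
    have e : m = M + i * l' := by exact_mod_cast hm
    rw [← h.iter_comm _ y hy, ← h.iter_comm _ y hy, e, Function.iterate_add_apply,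
      h.iter_root _ _ (h.invψ y hy _), ← h.flow.add]
    congr 2
    rw [hkr]
    push_cast
    ring
  · obtain ⟨l', hl'⟩ := Int.eq_ofNat_of_zero_le (by omega : 0 ≤ -l)
    have hl2 : l = -(l' : ℤ) := by omega
    subst hl2
    have e : M = m + i * l' := by
      have : (M : ℤ) = m + i * l' := by rw [hm]; ring
      exact_mod_cast this
    rw [← h.iter_comm _ y hy, ← h.iter_comm _ y hy, e, Function.iterate_add_apply,
      h.iter_root _ _ (h.invψ y hy _), ← h.flow.add]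
    congr 2
    rw [hkr]
    push_cast
    ring

end

/-- returns along multiples of `Q` -/
theorem returns {n : ℕ} {N : Type u} [TopologicalSpace N] [ChartedSpace (V n) N]
    {r : ℕ∞} {F : DiffM n N r} {K : Set N} (α : ℝ) (hinv' : ∀ y ∈ K, F.symm y ∈ K)
    {z : N} (hz : z ∈ K) (hrec : IsRec F.toHomeomorph z) (W : Set N) (hW : W ∈ 𝓝 z)
    (Q : ℕ) (hQ : 1 ≤ Q) (ε : ℝ) (hε : 0 < ε) (M₀ : ℕ) :
    ∃ y ∈ K, y ∈ W ∧ ∃ (M : ℕ) (K' : ℤ), M₀ ≤ M ∧ F^[M] y ∈ W ∧ (Q : ℤ) ∣ M ∧ (Q : ℤ) ∣ K' ∧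
      |(M : ℝ) * α - K'| < ε := by
  rcases rec_cases F.toHomeomorph z hrec with h | h
  · obtain ⟨M, h1, _, h2, h3, K', h4, h5⟩ :=
      blocks F F.continuous z h W hW α Q hQ ε hε M₀
    exact ⟨z, hz, mem_of_mem_nhds hW, M, K', h1, h3, by exact_mod_cast h2, h4, h5⟩
  · have h' : ∀ W ∈ 𝓝 z, ∃ n : ℕ, 1 ≤ n ∧ F.symm^[n] z ∈ W := h
    obtain ⟨M, h1, _, h2, h3, K', h4, h5⟩ :=
      blocks F.symm F.symm.continuous z h' W hW (-α) Q hQ ε hε M₀
    have hmem : ∀ m : ℕ, F.symm^[m] z ∈ K := by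
      intro m
      induction m with
      | zero => exact hz
      | succ m ih =>
        rw [Function.iterate_succ_apply']
        exact hinv' _ ih
    have hback : ∀ m : ℕ, F^[m] (F.symm^[m] z) = z := by
      intro m
      induction m with
      | zero => rfl
      | succ m ih =>
        rw [Function.iterate_succ_apply, Function.iterate_succ_apply', F.apply_symm_apply]
        exact ih
    refine ⟨F.symm^[M] z, hmem M, h3, M, -K', h1, ?_, by exact_mod_cast h2, h4.neg_right, ?_⟩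
    · rw [hback]
      exact mem_of_mem_nhds hW
    · have e : (M : ℝ) * α - ((-K' : ℤ) : ℝ) = -((M : ℝ) * -α - K') := by
        push_cast
        ring
      rw [e, abs_neg]
      exact h5

theorem main {n : ℕ} {N : Type u} [TopologicalSpace N] [T2Space N] [CompactSpace N]
    [ChartedSpace (V n) N] [IsManifold (𝓡 n) ∞ N] (r : ℕ∞) (hr : 1 ≤ r) (F : DiffM n N r)
    {ψ : ℝ → N → N} {a : N → ℂ} {K : Set N} {α : ℝ} {i : ℕ} {j : ℤ}
    (h : RootOn n N r F ψ a K α i j) (z : N) (hz : z ∈ K) (hrec : IsRec F.toHomeomorph z) :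
    Closable n N r F z := by
  intro U hU hFU
  by_cases hτ : (i : ℝ) * α + j = 0
  · -- the point is periodic
    refine ⟨F, hFU, i, ?_, ?_⟩
    · by_contra hi
      have hi0 : i = 0 := by omega
      subst hi0
      have hj : j = 0 := by
        rw [Nat.cast_zero, zero_mul, zero_add] at hτ
        exact_mod_cast hτ
      have := h.cop
      rw [hj] at this
      have h2 : IsUnit (0 : ℤ) := by
        have := isCoprime_zero_left.1 this
        exact this
      exact not_isUnit_zero h2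
    · rw [h.root z hz, hτ, h.flow.zero]
  -- the neighbourhood for the first perturbation
  obtain ⟨H₁, κa, hκa, hH₁0, hfam₁, hH₁⟩ := fam r h.flow a h.smooth 1 le_rfl F
  obtain ⟨χ, hχ⟩ := Pool.Agent.W699.SC.gc n N z
  obtain ⟨k₁, hk₁, hk₁r, κb, hκb, hNB⟩ := t_NBHD n N r hr (ℝ × (ℂ × ℂ)) H₁ hfam₁ χ z hχ U hU
    (by rw [hH₁0]; exact hFU)
  obtain ⟨q, p, D, hq, hD, hpq, hnum⟩ := num α i j h.cop hτ (min κa κb) (lt_min hκa hκb)
  have hq0 : (0 : ℝ) < q := by exact_mod_cast hq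
  obtain ⟨s₀, hs₀⟩ : ∃ s₀ : ℝ, s₀ = (p : ℝ) / q - α := ⟨_, rfl⟩
  obtain ⟨F₁, hF₁U, hF₁⟩ : ∃ F₁ : DiffM n N r, F₁ ∈ U ∧ ∀ y, F₁ y = ψ s₀ (F y) := by
    have hn : ‖((s₀, ((0 : ℂ), (0 : ℂ))) : ℝ × (ℂ × ℂ))‖ < min κa κb := by
      rw [Prod.norm_def]
      apply max_lt
      · show ‖s₀‖ < _
        rw [Real.norm_eq_abs, hs₀]
        exact hpq
      · show ‖((0 : ℂ), (0 : ℂ))‖ < _
        have : (((0 : ℂ), (0 : ℂ)) : ℂ × ℂ) = 0 := rfl
        rw [this, norm_zero]
        exact lt_min hκa hκb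
    have h1 := hNB (s₀, ((0 : ℂ), (0 : ℂ))) (fun _ => 0) (Diffeomorph.refl (𝓡 n) N r)
      (hn.trans_le (min_le_right _ _)) ⟨contDiff_const, fun _ _ => rfl, fun l _ x => by
        have e : iteratedFDeriv ℝ l (fun _ : V n => (0 : V n)) x = 0 := by
          have := iteratedFDeriv_fun_zero (𝕜 := ℝ) (E := V n) (F := V n) (n := l)
          exact congrFun this x
        rw [e, norm_zero]
        exact hκb.le⟩ ⟨fun y hy => ⟨hy, by rw [add_zero]; rfl⟩, fun y _ => rfl⟩
    refine ⟨H₁ (s₀, ((0 : ℂ), (0 : ℂ))), ?_, ?_⟩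
    · have e : (H₁ (s₀, ((0 : ℂ), (0 : ℂ)))).trans (Diffeomorph.refl (𝓡 n) N r) =
          H₁ (s₀, ((0 : ℂ), (0 : ℂ))) := by
        ext y
        rfl
      rw [e] at h1
      exact h1
    · intro y
      rw [hH₁ _ (hn.trans_le (min_le_left _ _))]
      congr 1
      unfold T
      simp
  -- the second family
  obtain ⟨H, κ1, hκ1, hH0, hfam, hH⟩ := fam r h.flow a h.smooth q hq F₁
  obtain ⟨k, hk, κ2, hκ2, hCL⟩ := t_CL n N r hr (ℝ × (ℂ × ℂ)) H hfam χ z hχ U hU
    (by rw [hH0]; exact hF₁U)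
  obtain ⟨κ, hκ0, hκa', hκb'⟩ : ∃ κ : ℝ, 0 < κ ∧ κ ≤ κ1 ∧ κ ≤ κ2 :=
    ⟨min κ1 κ2, lt_min hκ1 hκ2, min_le_left _ _, min_le_right _ _⟩
  obtain ⟨c, hc⟩ : ∃ c : ℕ, c = D.natAbs := ⟨_, rfl⟩
  have hc1 : 1 ≤ c := by
    have := Int.natAbs_pos.2 hD
    omega
  have hcD : (c : ℤ) = |D| := by
    rw [hc]
    exact Int.natCast_natAbs D
  obtain ⟨δ, M₂, hδ, hMO⟩ := moebc c hc1 κ hκ0
  obtain ⟨δ', hδ'0, hδ'1⟩ : ∃ δ' : ℝ, 0 < δ' ∧ δ' = min δ 1 / q := ⟨_, by positivity, rfl⟩
  have hac : Continuous a := h.smooth.continuous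
  -- the radius
  obtain ⟨ρ, hρ0, hρκ, hρa⟩ : ∃ ρ : ℝ, 0 < ρ ∧ ρ < κ2 ∧
      ∀ y ∈ χ.source, ‖χ y‖ < 3 * ρ → ‖a y - a z‖ < 2 * δ' := by
    have hcn : ContinuousAt (fun x => a (χ.symm x)) (0 : V n) := by
      have h5 : ContinuousAt χ.symm (0 : V n) := by
        apply χ.continuousAt_symm
        exact hχ.ball (mem_closedBall_self (by norm_num))
      exact ContinuousAt.comp (g := a) (f := χ.symm) hac.continuousAt h5
    have hz0 : χ.symm (0 : V n) = z := by
      rw [← hχ.zero]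
      exact χ.left_inv hχ.src
    rw [Metric.continuousAt_iff] at hcn
    obtain ⟨ε, hε, hε2⟩ := hcn (2 * δ') (by positivity)
    refine ⟨min (ε / 3) (κ2 / 2), lt_min (by linarith) (by linarith),
      (min_le_right _ _).trans_lt (by linarith), ?_⟩
    intro y hy hy2
    have h5 : ‖χ y‖ < ε := by
      have : min (ε / 3) (κ2 / 2) ≤ ε / 3 := min_le_left _ _
      linarith
    have h6 := hε2 (x := χ y) (by rw [dist_zero_right]; exact h5)
    rw [χ.left_inv hy, hz0, dist_eq_norm] at h6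
    exact h6
  obtain ⟨ε, hε0, hε1, hε2, hε3⟩ : ∃ ε : ℝ, 0 < ε ∧ ε ≤ ρ ∧ ε ≤ κ2 ∧ 2 * ε ≤ κ2 * ρ ^ k := by
    have h5 : 0 < κ2 * ρ ^ k / 2 := by positivity
    refine ⟨min (min ρ κ2) (κ2 * ρ ^ k / 2), lt_min (lt_min hρ0 hκ2) h5,
      (min_le_left _ _).trans (min_le_left _ _), (min_le_left _ _).trans (min_le_right _ _), ?_⟩
    have := min_le_right (min ρ κ2) (κ2 * ρ ^ k / 2)
    linarith
  have hW : {y : N | y ∈ χ.source ∧ ‖χ y‖ < ε} ∈ 𝓝 z := by
    have h5 : χ.source ∈ 𝓝 z := χ.open_source.mem_nhds hχ.src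
    have h6 : ContinuousAt (fun y => ‖χ y‖) z := (χ.continuousAt hχ.src).norm
    have h7 : ∀ᶠ y in 𝓝 z, ‖χ y‖ < ε := by
      have h8 : ‖χ z‖ < ε := by rw [hχ.zero, norm_zero]; exact hε0
      exact h6.eventually_lt_const h8
    filter_upwards [h5, h7] with y hy1 hy2
    exact ⟨hy1, hy2⟩
  -- the smaller neighbourhood
  obtain ⟨η, W', hη, hW', hWψ⟩ : ∃ (η : ℝ) (W' : Set N), 0 < η ∧ W' ∈ 𝓝 z ∧
      ∀ t, |t| < η → ∀ y ∈ W', ψ t y ∈ {y : N | y ∈ χ.source ∧ ‖χ y‖ < ε} := by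
    have h1 : Continuous (fun q : ℝ × N => ψ q.1 q.2) := h.flow.smooth.continuous
    have h2 : {y : N | y ∈ χ.source ∧ ‖χ y‖ < ε} ∈ 𝓝 ((fun q : ℝ × N => ψ q.1 q.2) (0, z)) := by
      show _ ∈ 𝓝 (ψ 0 z)
      rw [h.flow.zero]
      exact hW
    have h3 := h1.continuousAt.preimage_mem_nhds h2
    rw [nhds_prod_eq] at h3
    obtain ⟨s1, hs1, s2, hs2, hs12⟩ := Filter.mem_prod_iff.1 h3
    obtain ⟨η, hη, hη2⟩ := Metric.mem_nhds_iff.1 hs1
    refine ⟨η, s2, hη, hs2, fun t ht y hy => ?_⟩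
    exact hs12 (show ((t, y) : ℝ × N) ∈ s1 ×ˢ s2 from ⟨hη2 (by
      rw [mem_ball, dist_zero_right, Real.norm_eq_abs]
      exact ht), hy⟩)
  obtain ⟨M₁, hM₁⟩ := hnum (max M₂ 1)
  have hDc : D ^ 2 = ((c ^ 2 : ℕ) : ℤ) := by
    rw [hc]
    push_cast
    exact (sq_abs D).symm
  obtain ⟨y, hyK, hyW, M, K', hMM, hMW, hQM, hQK, hMK⟩ := returns α h.inv' hz hrec W' hW' (c ^ 2)
    (Nat.one_le_pow _ _ (by omega)) (min η 1) (lt_min hη one_pos) M₁
  obtain ⟨m, kk, l, hm, hml, hkl, hkm, hcop⟩ := hM₁ M K' hMM (by rw [hDc]; exact hQM)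
    (by rw [hDc]; exact hQK) (hMK.le.trans (min_le_right _ _))
  have hmM₂ : M₂ ≤ m := (le_max_left _ _).trans hm
  have hm1 : 1 ≤ m := (le_max_right _ _).trans hm
  obtain ⟨P, Q, θ, hPQ, hθ0, hθ1, hθ2, hθ3⟩ := hMO m hmM₂
  -- facts on `F₁`
  have hF₁K : ∀ y ∈ K, F₁ y ∈ K := fun y hy => by
    rw [hF₁]
    exact h.invψ _ (h.inv y hy) _
  have hF₁c : ∀ y ∈ K, ∀ t, F₁ (ψ t y) = ψ t (F₁ y) := fun y hy t => by
    rw [hF₁, hF₁, h.comm y hy, ← h.flow.add, ← h.flow.add, add_comm]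
  have hF₁a : ∀ y ∈ K, a (F₁ y) = ex ((p : ℝ) / q) * a y := fun y hy => by
    rw [hF₁, h.eigψ _ (h.inv y hy), h.eigF y hy, ← mul_assoc, ← ex_add, hs₀]
    congr 2
    ring
  have hF₁m : ∀ (l : ℕ), F₁^[l] y = ψ (l * s₀) (F^[l] y) ∧ F₁^[l] y ∈ K ∧
      a (F₁^[l] y) = ex (l * p / q) * a y := by
    intro l
    induction l with
    | zero =>
      refine ⟨?_, hyK, ?_⟩
      · rw [Nat.cast_zero, zero_mul, h.flow.zero]
        rfl
      · rw [Nat.cast_zero, zero_mul, zero_div, ex_zero, one_mul]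
        rfl
    | succ l ih =>
      obtain ⟨i1, i2, i3⟩ := ih
      refine ⟨?_, ?_, ?_⟩
      · rw [Function.iterate_succ_apply', Function.iterate_succ_apply', i1, hF₁,
          h.comm _ (h.iter_mem l y hyK), ← h.flow.add]
        congr 1
        push_cast
        ring
      · rw [Function.iterate_succ_apply']
        exact hF₁K _ i2
      · rw [Function.iterate_succ_apply', hF₁a _ i2, i3, ← mul_assoc, ← ex_add]
        congr 2
        push_cast
        ring
  have hay : ‖a y‖ = 1 := h.norm y hyK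
  have hayq : ‖a y ^ q‖ = 1 := by rw [norm_pow, hay, one_pow]
  obtain ⟨s, hs⟩ : ∃ s : ℝ × (ℂ × ℂ), s = (0, (P, Q * a y ^ q)) := ⟨_, rfl⟩
  have hsn : ‖s‖ < κ := by
    rw [hs]
    have h1 : ‖P‖ < κ := (norm_fst_le (P, Q)).trans_lt hPQ
    have h2 : ‖Q‖ < κ := (norm_snd_le (P, Q)).trans_lt hPQ
    rw [Prod.norm_def]
    apply max_lt
    · show ‖(0 : ℝ)‖ < κ
      rw [norm_zero]
      exact hκ0
    · show ‖((P, Q * a y ^ q) : ℂ × ℂ)‖ < κ
      rw [Prod.norm_def]
      apply max_lt h1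
      show ‖Q * a y ^ q‖ < κ
      rw [norm_mul, hayq, mul_one]
      exact h2
  -- the orbit
  have horb : ∀ l : ℕ, (H s)^[l] y = ψ (θ l / q) (F₁^[l] y) ∧ (H s)^[l] y ∈ K ∧
      a ((H s)^[l] y) = ex ((θ l + l * p) / q) * a y := by
    intro l
    induction l with
    | zero =>
      refine ⟨?_, hyK, ?_⟩
      · rw [hθ0, zero_div, h.flow.zero]
        rfl
      · rw [hθ0, Nat.cast_zero, zero_mul, add_zero, zero_div, ex_zero, one_mul]
        rfl
    | succ l ih =>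
      obtain ⟨i1, i2, i3⟩ := ih
      obtain ⟨f1, f2, f3⟩ := hF₁m l
      obtain ⟨f1', f2', f3'⟩ := hF₁m (l + 1)
      have e1 : a (F₁ ((H s)^[l] y)) ^ q = ex (θ l) * a y ^ q := by
        rw [hF₁a _ i2, i3, ← mul_assoc, ← ex_add, mul_pow, ← ex_nat_mul]
        congr 1
        have e2 : (q : ℝ) * ((p : ℝ) / q + (θ l + l * p) / q) = θ l + ((p * (l + 1) : ℤ) : ℝ) := by
          push_cast
          field_simp
          ring
        rw [e2, ex_add_int]
      have e2 : T q s (a (F₁ ((H s)^[l] y)) ^ q) = (θ (l + 1) - θ l) / q := by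
        rw [e1, hθ1, hs]
        unfold T
        simp only
        have e3 : Q * a y ^ q * conj (ex (θ l) * a y ^ q) = Q * conj (ex (θ l)) := by
          have e4 : a y ^ q * conj (a y ^ q) = 1 :=
            Pool.Agent.W54.SC.conj_mul_self _ hayq
          rw [map_mul]
          linear_combination (Q * conj (ex (θ l))) * e4
        rw [e3, zero_add, add_sub_cancel_left, div_div]
      have e5 : (H s)^[l + 1] y = ψ (θ (l + 1) / q) (F₁^[l + 1] y) := by
        rw [Function.iterate_succ_apply', hH s (hsn.trans_le hκa'), e2, i1, hF₁c _ f2,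
          ← h.flow.add, Function.iterate_succ_apply']
        congr 1
        ring
      refine ⟨e5, ?_, ?_⟩
      · rw [e5]
        exact h.invψ _ f2' _
      · rw [e5, h.eigψ _ f2', f3', ← mul_assoc, ← ex_add]
        congr 2
        ring
  -- the end of the orbit
  have hend : (H s)^[m] y = ψ (K' - M * α) (F^[M] y) := by
    rw [(horb m).1, (hF₁m m).1, ← h.flow.add]
    have e1 : θ m = c := hθ2 m c rfl
    have e2 : (kk : ℝ) * q - p * m = c := by
      have := hkm.trans hcD.symm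
      exact_mod_cast this
    have e3 : θ m / q + m * s₀ = kk - m * α := by
      rw [e1, hs₀, ← e2]
      field_simp
      ring
    rw [e3]
    exact h.move hml hkl y hyK
  have hMK' : |(K' : ℝ) - M * α| < η := by
    rw [abs_sub_comm]
    exact hMK.trans_le (min_le_left _ _)
  obtain ⟨hmyχ, hmyε⟩ := hWψ _ hMK' _ hMW
  have hyy : y ∈ χ.source ∧ ‖χ y‖ < ε := by
    have := hWψ 0 (by rw [abs_zero]; exact hη) y hyW
    rwa [h.flow.zero] at this
  obtain ⟨hyχ, hyε⟩ := hyy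
  refine hCL s y ρ m (hsn.trans_le hκb') hyχ (hyε.trans_le hε2) hρ0 hρκ hm1 ?_ ?_ ?_
  · rw [hend]
    exact hmyχ
  · rw [hend]
    calc ‖χ (ψ (K' - M * α) (F^[M] y)) - χ y‖ ≤ ‖χ (ψ (K' - M * α) (F^[M] y))‖ + ‖χ y‖ :=
          norm_sub_le _ _
      _ < ε + ε := add_lt_add hmyε hyε
      _ = 2 * ε := by ring
      _ ≤ κ2 * ρ ^ k := hε3
  · intro i' hi0 him hiχ
    by_contra hcon
    push Not at hcon
    have h5 : ‖χ ((H s)^[i'] y)‖ < 3 * ρ := by
      have h6 : χ ((H s)^[i'] y) = (χ ((H s)^[i'] y) - χ y) + χ y := by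
        rw [sub_add_cancel]
      rw [h6]
      have h7 := norm_add_le (χ ((H s)^[i'] y) - χ y) (χ y)
      linarith
    have h6 := hρa _ hiχ h5
    have h7 := hρa y hyχ (by linarith)
    have h8 : ‖a ((H s)^[i'] y) - a y‖ < 4 * δ' := by
      have e : a ((H s)^[i'] y) - a y = (a ((H s)^[i'] y) - a z) - (a y - a z) := by ring
      rw [e]
      refine (norm_sub_le _ _).trans_lt ?_
      linarith
    rw [(horb i').2.2] at h8
    have h9 : ex ((θ i' + i' * p) / q) * a y - a y = (ex ((θ i' + i' * p) / q) - 1) * a y := by ring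
    rw [h9, norm_mul, hay, mul_one] at h8
    have h10 : ∀ t : ℤ, δ' ≤ |(θ i' + i' * p) / q - t| := by
      intro t
      have e1 : (θ i' + i' * p) / q - t = (θ i' - ((q * t - i' * p : ℤ) : ℝ)) / q := by
        push_cast
        field_simp
        ring
      rw [e1, abs_div, abs_of_pos hq0, hδ'1]
      apply div_le_div_of_nonneg_right _ hq0.le
      by_cases hcase : ∃ l : ℕ, i' * c = m * l
      · obtain ⟨l', hl'⟩ := hcase
        refine (min_le_right _ _).trans ?_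
        rw [hθ2 i' l' hl']
        have e2 : (l' : ℝ) - ((q * t - i' * p : ℤ) : ℝ) = ((l' - (q * t - i' * p) : ℤ) : ℝ) := by
          push_cast
          ring
        rw [e2]
        have e3 : ((l' : ℤ) - (q * t - i' * p)) ≠ 0 := by
          intro h0
          have e4 : (l' : ℤ) + i' * p = q * t := by linarith
          have e5 : (i' : ℤ) * c = m * l' := by exact_mod_cast hl'
          have e6 : (q : ℤ) * ((i' : ℤ) * kk) = q * (m * t) := by
            have e7 := hkm.trans hcD.symm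
            linear_combination (i' : ℤ) * e7 + e5 + (m : ℤ) * e4
          have e7 : (q : ℤ) ≠ 0 := by
            have : 0 < q := hq
            exact_mod_cast this.ne'
          have e8 : (i' : ℤ) * kk = m * t := mul_left_cancel₀ e7 e6
          have e9 : (m : ℤ) ∣ i' := hcop.dvd_of_dvd_mul_right ⟨t, e8⟩
          have e10 : m ∣ i' := by exact_mod_cast e9
          have := Nat.le_of_dvd hi0 e10
          omega
        have e4 := Int.one_le_abs e3
        have e5 : ((1 : ℤ) : ℝ) ≤ ((|((l' : ℤ) - (q * t - i' * p))| : ℤ) : ℝ) := by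
          exact_mod_cast e4
        rw [Int.cast_one, Int.cast_abs] at e5
        exact e5
      · push Not at hcase
        exact (min_le_left _ _).trans (hθ3 i' hcase _)
    have h11 := le_norm_ex_sub_one h10
    linarith

end Pool.Agent.TH290.CL
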