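import Pool.Agent.TH290.CL.Flow

/-!
# Time changes of flows are diffeomorphisms
-/

set_option autoImplicit false
set_option linter.unusedSectionVars false

open scoped Manifold ContDiff Topology NNReal
open Filter Set Metric

universe u

namespace Pool.Agent.TH290.CL

open Pool.Agent.H718R2.G Pool.Agent.W564.SC

variable {n : ℕ} {N : Type u} [TopologicalSpace N] [ChartedSpace (V n) N] [IsManifold (𝓡 n) ∞ N]
  {ψ : ℝ → N → N} (hψ : IsFlow n N ψ) {τ : N → ℝ} (hτ : ContMDiff (𝓡 n) 𝓘(ℝ, ℝ) ∞ τ)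
  (hlip : ∀ y : N, LipschitzWith (1 / 2) (fun t : ℝ => τ (ψ t y)))

include hlip in
theorem tc_mono (y : N) (s t : ℝ) (hst : s ≤ t) :
    (t - s) / 2 ≤ (t + τ (ψ t y)) - (s + τ (ψ s y)) := by
  have h1 := (hlip y).dist_le_mul t s
  rw [Real.dist_eq, Real.dist_eq, abs_of_nonneg (sub_nonneg.2 hst)] at h1
  have h2 := neg_abs_le (τ (ψ t y) - τ (ψ s y))
  have h3 : ((1 / 2 : ℝ≥0) : ℝ) = 1 / 2 := by norm_num
  rw [h3] at h1
  linarith

include hψ hτ hlip in
theorem tc_zero (y : N) : ∃ t : ℝ, t + τ (ψ t y) = 0 := by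
  have hc : Continuous (fun t : ℝ => t + τ (ψ t y)) :=
    continuous_id.add (line_smooth hψ hτ y).continuous
  set c : ℝ := 0 + τ (ψ 0 y) with hc0
  have h1 := tc_mono hlip y (-(2 * |c|)) 0 (by have := abs_nonneg c; linarith)
  have h2 := tc_mono hlip y 0 (2 * |c|) (by have := abs_nonneg c; linarith)
  have h3 := le_abs_self c
  have h4 := neg_abs_le c
  have h5 : (0 : ℝ) ∈ Icc ((-(2 * |c|)) + τ (ψ (-(2 * |c|)) y)) ((2 * |c|) + τ (ψ (2 * |c|) y)) := by
    constructor <;> linarith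
  have h6 := intermediate_value_Icc (by have := abs_nonneg c; linarith :
    (-(2 * |c|)) ≤ 2 * |c|) hc.continuousOn h5
  obtain ⟨t, _, ht⟩ := h6
  exact ⟨t, ht⟩

include hlip in
theorem tc_unique (y : N) (s t : ℝ) (hs : s + τ (ψ s y) = 0) (ht : t + τ (ψ t y) = 0) : s = t := by
  rcases le_total s t with h | h
  · have := tc_mono hlip y s t h
    linarith
  · have := tc_mono hlip y t s h
    linarith

/-- the linear isomorphism `(t, v) ↦ (A v + β t, v)` -/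
noncomputable def eqv (A : V n →L[ℝ] ℝ) (β : ℝ) (hβ : β ≠ 0) : (ℝ × V n) ≃L[ℝ] (ℝ × V n) :=
  ContinuousLinearEquiv.equivOfInverse
    ((β • ContinuousLinearMap.fst ℝ ℝ (V n) + A.comp (ContinuousLinearMap.snd ℝ ℝ (V n))).prod
      (ContinuousLinearMap.snd ℝ ℝ (V n)))
    ((β⁻¹ • (ContinuousLinearMap.fst ℝ ℝ (V n) - A.comp (ContinuousLinearMap.snd ℝ ℝ (V n)))).prod
      (ContinuousLinearMap.snd ℝ ℝ (V n)))
    (by
      rintro ⟨t, v⟩
      ext1
      · simp [hβ]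
      · simp)
    (by
      rintro ⟨t, v⟩
      ext1
      · simp [hβ]
      · simp)

include hψ hτ hlip in
theorem tc_smooth (u : N → ℝ) (hu : ∀ y, u y + τ (ψ (u y) y) = 0) : ContMDiff (𝓡 n) 𝓘(ℝ, ℝ) ∞ u := by
  intro y₀
  set φ := chartAt (V n) y₀ with hφ
  set v₀ : V n := φ y₀ with hv₀
  set Φ : ℝ × V n → ℝ := fun q => q.1 + τ (ψ q.1 (φ.symm q.2)) with hΦ
  have hs : φ.symm v₀ = y₀ := φ.left_inv (mem_chart_source _ y₀)
  have hΦs : ContDiffAt ℝ ∞ Φ (u y₀, v₀) := contDiffAt_fst.add (loc_smooth hψ hτ y₀ (u y₀))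
  have hΦd : HasFDerivAt Φ (fderiv ℝ Φ (u y₀, v₀)) (u y₀, v₀) :=
    (hΦs.differentiableAt (by simp)).hasFDerivAt
  set A : V n →L[ℝ] ℝ := (fderiv ℝ Φ (u y₀, v₀)).comp (ContinuousLinearMap.inr ℝ ℝ (V n)) with hA
  set β : ℝ := fderiv ℝ Φ (u y₀, v₀) (1, 0) with hβ
  have hβd : HasDerivAt (fun t : ℝ => t + τ (ψ t y₀)) β (u y₀) := by
    have h1 : HasDerivAt (fun t : ℝ => ((t, v₀) : ℝ × V n)) (1, 0) (u y₀) :=
      (hasDerivAt_id _).prodMk (hasDerivAt_const _ _)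
    have h2 := hΦd.comp_hasDerivAt (u y₀) h1
    refine h2.congr_of_eventuallyEq (Eventually.of_forall fun t => ?_)
    show t + τ (ψ t y₀) = t + τ (ψ t (φ.symm v₀))
    rw [hs]
  have hβ0 : 1 / 2 ≤ β := by
    have h1 : HasDerivAt (fun t : ℝ => τ (ψ t y₀)) (β - 1) (u y₀) := by
      have := hβd.sub (hasDerivAt_id (u y₀))
      refine this.congr_of_eventuallyEq (Eventually.of_forall fun t => ?_)
      show τ (ψ t y₀) = (t + τ (ψ t y₀)) - t
      ring
    have h2 := h1.le_of_lipschitz (hlip y₀)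
    have h3 : ((1 / 2 : ℝ≥0) : ℝ) = 1 / 2 := by norm_num
    rw [h3, Real.norm_eq_abs, abs_le] at h2
    linarith
  have hβn : β ≠ 0 := by linarith
  set E : ℝ × V n → ℝ × V n := fun q => (Φ q, q.2) with hE
  have hEs : ContDiffAt ℝ ∞ E (u y₀, v₀) := hΦs.prodMk contDiffAt_snd
  have hEd : HasFDerivAt E (eqv A β hβn : (ℝ × V n) →L[ℝ] (ℝ × V n)) (u y₀, v₀) := by
    have h1 : HasFDerivAt E ((fderiv ℝ Φ (u y₀, v₀)).prod (ContinuousLinearMap.snd ℝ ℝ (V n)))
        (u y₀, v₀) := hΦd.prodMk hasFDerivAt_snd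
    convert h1 using 1
    ext1
    · ext
      · simp only [eqv, hβ, hA, ContinuousLinearEquiv.equivOfInverse,
          ContinuousLinearMap.comp_apply, ContinuousLinearMap.inl_apply]
        simp
        exact (map_zero _)
      · simp [eqv]
    · ext v
      · simp [eqv, hβ, hA]
      · simp [eqv]
  have hE0 : E (u y₀, v₀) = (0, v₀) := by
    show ((u y₀ + τ (ψ (u y₀) (φ.symm v₀))), v₀) = _
    rw [hs, hu]
  set g := hEs.localInverse hEd (by simp) with hg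
  have hgs : ContDiffAt ℝ ∞ g (0, v₀) := by
    have := hEs.to_localInverse hEd (by simp)
    rwa [hE0] at this
  have hgr : ∀ᶠ z in 𝓝 ((0 : ℝ), v₀), E (g z) = z := by
    have := (hEs.hasStrictFDerivAt' hEd (by simp)).eventually_right_inverse
    rwa [hE0] at this
  -- the local formula for `u`
  have h2 : Tendsto (fun v : V n => (((0 : ℝ), v) : ℝ × V n)) (𝓝 v₀) (𝓝 ((0 : ℝ), v₀)) :=
    (Continuous.prodMk_right (0 : ℝ)).tendsto v₀
  have h3 : ∀ᶠ v in 𝓝 v₀, (g (0, v)).1 = u (φ.symm v) := by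
    filter_upwards [h2.eventually hgr] with v hv
    have h4 : (g (0, v)).2 = v := congrArg Prod.snd hv
    have h5 : Φ (g (0, v)) = 0 := congrArg Prod.fst hv
    apply tc_unique hlip (φ.symm v) _ _ _ (hu _)
    have h6 : Φ (g (0, v)) = (g (0, v)).1 + τ (ψ (g (0, v)).1 (φ.symm (g (0, v)).2)) := rfl
    rw [h6, h4] at h5
    exact h5
  have h4 : ContDiffAt ℝ ∞ (fun v : V n => (g (0, v)).1) v₀ := by
    have h5 : ContDiffAt ℝ ∞ (fun v : V n => (((0 : ℝ), v) : ℝ × V n)) v₀ :=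
      contDiffAt_const.prodMk contDiffAt_id
    have h6 : ContDiffAt ℝ ∞ (fun v : V n => g (0, v)) v₀ :=
      ContDiffAt.comp (f := fun v : V n => (((0 : ℝ), v) : ℝ × V n)) v₀ hgs h5
    exact h6.fst
  have h5 : ContMDiffAt (𝓡 n) (𝓡 n) ∞ φ y₀ := by
    have h6 : ContMDiffOn (𝓡 n) (𝓡 n) ∞ φ φ.source :=
      contMDiffOn_of_mem_maximalAtlas (IsManifold.chart_mem_maximalAtlas y₀)
    exact h6.contMDiffAt (chart_source_mem_nhds _ y₀)
  have h6 : ContMDiffAt (𝓡 n) 𝓘(ℝ, ℝ) ∞ (fun y => (g (0, φ y)).1) y₀ :=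
    ContMDiffAt.comp (g := fun v : V n => (g (0, v)).1) (f := φ) y₀ h4.contMDiffAt h5
  refine h6.congr_of_eventuallyEq ?_
  have h7 := (φ.continuousAt (mem_chart_source _ y₀)).eventually h3
  filter_upwards [h7, chart_source_mem_nhds (V n) y₀] with y hy1 hy2
  rw [hy1, φ.left_inv hy2]

include hψ hτ in
theorem tc_map_smooth : ContMDiff (𝓡 n) (𝓡 n) ∞ (fun y => ψ (τ y) y) := by
  have h1 : ContMDiff (𝓡 n) (𝓘(ℝ, ℝ).prod (𝓡 n)) ∞ (fun y => (τ y, y)) :=
    hτ.prodMk contMDiff_id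
  exact hψ.smooth.comp h1

include hψ hτ hlip in
/-- If `τ` is `1/2`-Lipschitz along the flow, then `y ↦ ψ_(τ y) y` is a diffeomorphism. -/
theorem tc (r : ℕ∞) : ∃ G : DiffM n N r, ∀ y, G y = ψ (τ y) y := by
  have hr : (r : WithTop ℕ∞) ≤ ∞ := by exact_mod_cast le_top
  choose u hu using tc_zero hψ hτ hlip
  have hus := tc_smooth hψ hτ hlip u hu
  have hl : ∀ y, ψ (u (ψ (τ y) y)) (ψ (τ y) y) = y := by
    intro y
    have h1 : u (ψ (τ y) y) = -τ y := by
      apply tc_unique hlip (ψ (τ y) y) _ _ (hu _)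
      rw [← hψ.add, neg_add_cancel, hψ.zero, neg_add_cancel]
    rw [h1, ← hψ.add, neg_add_cancel, hψ.zero]
  have hrr : ∀ y, ψ (τ (ψ (u y) y)) (ψ (u y) y) = y := by
    intro y
    rw [← hψ.add, add_comm, hu, hψ.zero]
  exact ⟨{ toFun := fun y => ψ (τ y) y
           invFun := fun y => ψ (u y) y
           left_inv := hl
           right_inv := hrr
           contMDiff_toFun := (tc_map_smooth hψ hτ).of_le hr
           contMDiff_invFun := (tc_map_smooth hψ hus).of_le hr }, fun y => rfl⟩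

end Pool.Agent.TH290.CL
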